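import Pool.Agent.E8helper16.TP.StmC

set_option autoImplicit false

/-!
# Project TP (helper16), MP_a1f59e_nt: from weights to numbers of primes (light imports)
-/

namespace Pool.Agent.E8helper16.TP

open Finset

/-- `p` and `p + h` are prime -/
def Pair (h p : ℕ) : Prop := p.Prime ∧ (p + h).Prime

open Classical in
/-- TP-14 (CW): from the weighted sum over a set `T` of triples `(a 0 r, a 1 r, a 2 r)` to the number of the triples of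
primes `p` with `p + h` prime -/
def S_CW : Prop := ∀ ε δ : ℝ, 0 < ε → 0 < δ → ∃ N₀ : ℕ, ∀ N : ℕ, N₀ ≤ N → ∀ h ∈ Icc 1 N,
  ∀ (T : Finset (ℕ × ℕ)) (a : Fin 3 → ℕ × ℕ → ℕ), (∀ r ∈ T, ∀ i, a i r ∈ Icc 1 N) →
  (∀ i, ∀ x : ℕ, ((T.filter (fun r => a i r = x)).card : ℝ) ≤ N) → ∀ M : ℝ, δ * (N : ℝ) ^ 2 ≤ M →
  |∑ r ∈ T, ff h (a 0 r) * ff h (a 1 r) * ff h (a 2 r) - M| ≤ (N : ℝ) ^ 2 / Real.log N →
  (1 - ε) * (M / Real.log N ^ 6) ≤ ((T.filter (fun r => ∀ i, Pair h (a i r))).card : ℝ) ∧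
  ((T.filter (fun r => ∀ i, Pair h (a i r))).card : ℝ) ≤ (1 + ε) * (M / Real.log N ^ 6)

end Pool.Agent.E8helper16.TP
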