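import Pool.Agent.E8helper16.TP.Loc
import Pool.Agent.E8helper16.TP.StmD
import Pool.Agent.E8helper66.GB.U3

set_option autoImplicit false

namespace Pool.Agent.E8helper16.TP

open Finset
open Pool.Agent.H807R2.Dav (ee)
open Pool.Agent.H373R2.T7 (lamz pz Vz mem_pz Vz_pos Vz_inv_small ev_L' ev_log' lamz_nonneg)
open Pool.Agent.E8helper66.GB (lamz_le_log)

lemma log_two_mul (N : ℕ) (hL : 1 ≤ Real.log N) : Real.log ((2 * N : ℕ) : ℝ) ≤ 2 * Real.log N := by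
  have h0 : (0 : ℝ) < N := by
    rcases Nat.eq_zero_or_pos N with h | h
    · rw [h] at hL; norm_num at hL
    · exact_mod_cast h
  push_cast
  rw [Real.log_mul (by norm_num) h0.ne']
  have := Real.log_two_lt_d9
  linarith

lemma ff_nonneg (h x : ℕ) : 0 ≤ ff h x :=
  mul_nonneg ArithmeticFunction.vonMangoldt_nonneg ArithmeticFunction.vonMangoldt_nonneg

lemma ff_le (N h x : ℕ) (hL : 1 ≤ Real.log N) (hh : h ∈ Icc 1 N) (hx : x ∈ Icc 1 N) : ff h x ≤ 2 * Real.log N ^ 2 := by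
  rw [mem_Icc] at hh hx
  have h1 : ArithmeticFunction.vonMangoldt x ≤ Real.log N := by
    refine ArithmeticFunction.vonMangoldt_le_log.trans (Real.log_le_log ?_ ?_)
    · exact_mod_cast (by omega : 0 < x)
    · exact_mod_cast hx.2
  have h2 : ArithmeticFunction.vonMangoldt (x + h) ≤ 2 * Real.log N := by
    refine ArithmeticFunction.vonMangoldt_le_log.trans (le_trans (Real.log_le_log ?_ ?_) (log_two_mul N hL))
    · exact_mod_cast (by omega : 0 < x + h)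
    · exact_mod_cast (by omega : x + h ≤ 2 * N)
  unfold ff
  calc ArithmeticFunction.vonMangoldt x * ArithmeticFunction.vonMangoldt (x + h) ≤ Real.log N * (2 * Real.log N) :=
        mul_le_mul h1 h2 ArithmeticFunction.vonMangoldt_nonneg (by linarith)
    _ = _ := by ring

lemma gg_le (K : ℕ) : ∃ N₀ : ℕ, ∀ N : ℕ, N₀ ≤ N → ∀ z : ℕ, 1 ≤ z → (z : ℝ) ≤ Real.log N ^ K → ∀ h x : ℕ,
    |gg z h x| ≤ 2 * Real.log N ^ 2 := by
  obtain ⟨m1, h1⟩ := lamz_le_log K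
  obtain ⟨m2, h2⟩ := ev_L' 1
  refine ⟨m1 + m2, fun N hN z hz hzK h x => ?_⟩
  have hL := h2 N (by omega)
  have a1 := h1 N (by omega) z hz hzK x
  have a2 := h1 N (by omega) z hz hzK (x + h)
  unfold gg
  rw [abs_mul]
  calc |lamz z x| * |lamz z (x + h)| ≤ Real.log N * Real.log N := mul_le_mul a1 a2 (abs_nonneg _) (by linarith)
    _ ≤ _ := by nlinarith

lemma l2 (N : ℕ) (F : ℕ → ℝ) (hF : ∀ x ∈ Icc 1 N, |F x| ≤ 2 * Real.log N ^ 2) :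
    ∑ x ∈ Icc 1 N, ‖((F x : ℝ) : ℂ)‖ ^ 2 ≤ N * (4 * Real.log N ^ 4) := by
  have h1 : ∀ x ∈ Icc 1 N, ‖((F x : ℝ) : ℂ)‖ ^ 2 ≤ 4 * Real.log N ^ 4 := by
    intro x hx
    rw [Complex.norm_real, Real.norm_eq_abs]
    calc |F x| ^ 2 ≤ (2 * Real.log N ^ 2) ^ 2 := pow_le_pow_left₀ (abs_nonneg _) (hF x hx) 2
      _ = _ := by ring
  refine (sum_le_sum h1).trans ?_
  rw [sum_const, nsmul_eq_mul, Nat.card_Icc, Nat.add_sub_cancel]

lemma l3 (N : ℕ) (F : ℕ → ℝ) (hF : ∀ x ∈ Icc 1 N, |F x| ≤ 2 * Real.log N ^ 2) :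
    |∑ x ∈ Icc 1 N, F x ^ 3| ≤ N * (8 * Real.log N ^ 6) := by
  refine (abs_sum_le_sum_abs _ _).trans ?_
  have h1 : ∀ x ∈ Icc 1 N, |F x ^ 3| ≤ 8 * Real.log N ^ 6 := by
    intro x hx
    rw [abs_pow]
    calc |F x| ^ 3 ≤ (2 * Real.log N ^ 2) ^ 3 := pow_le_pow_left₀ (abs_nonneg _) (hF x hx) 3
      _ = _ := by ring
  refine (sum_le_sum h1).trans ?_
  rw [sum_const, nsmul_eq_mul, Nat.card_Icc, Nat.add_sub_cancel]

lemma tel_T (hTT : S_TTA) (hTel : S_TEL) (N : ℕ) (F G : ℕ → ℝ) (A : ℝ)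
    (hA : ∀ θ : ℝ, ‖∑ x ∈ Icc 1 N, ((F x - G x : ℝ) : ℂ) * ee ((x : ℝ) * θ)‖ ≤ A)
    (hF : ∀ x ∈ Icc 1 N, |F x| ≤ 2 * Real.log N ^ 2) (hG : ∀ x ∈ Icc 1 N, |G x| ≤ 2 * Real.log N ^ 2) (n : ℕ) (hn : n ≤ N) :
    |∑ r ∈ tri 1 (n - 1), F r.1 * F r.2 * F (n - r.1 - r.2) - ∑ r ∈ tri 1 (n - 1), G r.1 * G r.2 * G (n - r.1 - r.2)| ≤
      3 * A * (N * (4 * Real.log N ^ 4)) := by
  have h1 := hTel N 1 1 1 n one_ne_zero one_ne_zero one_ne_zero (fun x => ((F x : ℝ) : ℂ)) (fun x => ((G x : ℝ) : ℂ)) A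
    (N * (4 * Real.log N ^ 4)) (by positivity) (fun θ => by
      have := hA θ
      simpa using this) (l2 N F hF) (l2 N G hG)
  rw [hTT.1 N n hn, hTT.1 N n hn] at h1
  rw [← Real.norm_eq_abs, ← Complex.norm_real]
  push_cast
  exact h1

lemma tel_A (hTT : S_TTA) (hTel : S_TEL) (N : ℕ) (F G : ℕ → ℝ) (A : ℝ)
    (hA : ∀ θ : ℝ, ‖∑ x ∈ Icc 1 N, ((F x - G x : ℝ) : ℂ) * ee ((x : ℝ) * θ)‖ ≤ A)
    (hF : ∀ x ∈ Icc 1 N, |F x| ≤ 2 * Real.log N ^ 2) (hG : ∀ x ∈ Icc 1 N, |G x| ≤ 2 * Real.log N ^ 2) :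
    |∑ r ∈ tri 2 N, F r.1 * F (r.1 + r.2) * F (r.1 + 2 * r.2) - ∑ r ∈ tri 2 N, G r.1 * G (r.1 + r.2) * G (r.1 + 2 * r.2)| ≤
      3 * A * (N * (4 * Real.log N ^ 4)) + N * (8 * Real.log N ^ 6) := by
  have h1 := hTel N 1 (-2) 1 0 one_ne_zero (by norm_num) one_ne_zero (fun x => ((F x : ℝ) : ℂ)) (fun x => ((G x : ℝ) : ℂ)) A
    (N * (4 * Real.log N ^ 4)) (by positivity) (fun θ => by
      have := hA θ
      simpa using this) (l2 N F hF) (l2 N G hG)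
  rw [hTT.2 N, hTT.2 N] at h1
  have hA0 : 0 ≤ A := (norm_nonneg _).trans (hA 0)
  set SF := ∑ r ∈ tri 2 N, F r.1 * F (r.1 + r.2) * F (r.1 + 2 * r.2) with hSF
  set SG := ∑ r ∈ tri 2 N, G r.1 * G (r.1 + r.2) * G (r.1 + 2 * r.2) with hSG
  have h2 : |(2 * SF + ∑ x ∈ Icc 1 N, F x ^ 3) - (2 * SG + ∑ x ∈ Icc 1 N, G x ^ 3)| ≤ 3 * A * (N * (4 * Real.log N ^ 4)) := by
    rw [← Real.norm_eq_abs, ← Complex.norm_real]
    rw [hSF, hSG]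
    push_cast
    exact h1
  have h3 := abs_le.1 h2
  have h4 := abs_le.1 (l3 N F hF)
  have h5 := abs_le.1 (l3 N G hG)
  have h6 : 0 ≤ 3 * A * (N * (4 * Real.log N ^ 4)) := by positivity
  rw [abs_le]
  constructor <;> linarith [h3.1, h3.2, h4.1, h4.2, h5.1, h5.2]

end Pool.Agent.E8helper16.TP
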