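import Pool.Agent.E8helper16.TP.StmB
import Pool.Agent.E8helper66.GB.U3

set_option autoImplicit false

namespace Pool.Agent.E8helper16.TP

open Finset
open Pool.Agent.H807R2.Dav (ee)
open Pool.Agent.H373R2.T7 (lamz pz Vz)
open Pool.Agent.E8helper66.GB (DD lamz_le_log ev_log)

lemma ff_gg (z h n : ℕ) : ((ff h n - gg z h n : ℝ) : ℂ) =
    ((ArithmeticFunction.vonMangoldt n : ℝ) : ℂ) * DD z (n + h) + DD z n * ((lamz z (n + h) : ℝ) : ℂ) := by
  unfold ff gg DD
  push_cast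
  ring

lemma vm_le_log (N x : ℕ) (hx : x ∈ Icc 1 (2 * N)) (hL : 2 ≤ Real.log N) :
    ‖((ArithmeticFunction.vonMangoldt x : ℝ) : ℂ)‖ ≤ Real.log N ^ 2 := by
  rw [mem_Icc] at hx
  rw [Complex.norm_real, Real.norm_eq_abs, abs_of_nonneg ArithmeticFunction.vonMangoldt_nonneg]
  refine ArithmeticFunction.vonMangoldt_le_log.trans ?_
  have h0 : (0 : ℝ) < N := by
    rcases Nat.eq_zero_or_pos N with h | h
    · rw [h] at hL; norm_num at hL
    · exact_mod_cast h
  have h1 : Real.log x ≤ Real.log (2 * N) := by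
    apply Real.log_le_log
    · exact_mod_cast (by omega : 0 < x)
    · exact_mod_cast hx.2
  rw [Real.log_mul (by norm_num) h0.ne'] at h1
  have h2 : Real.log 2 ≤ 1 := by
    have := Real.log_two_lt_d9
    linarith
  nlinarith

theorem t_FOU (hT : S_TRI) : S_FOU := by
  classical
  intro U
  obtain ⟨B, hB⟩ := hT (2 * U + 2)
  refine ⟨B, fun K => ?_⟩
  obtain ⟨m1, h1⟩ := hB K
  obtain ⟨m2, h2⟩ := lamz_le_log K
  obtain ⟨m3, h3⟩ := ev_log 2
  refine ⟨m1 + m2 + m3 + 1, fun N hN z hz1 hz2 => ?_⟩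
  have hL : 2 ≤ Real.log N := h3 N (by omega)
  have hL1 : 1 ≤ Real.log N := by linarith
  have hL0 : 0 < Real.log N := by linarith
  have hN0 : (0 : ℝ) < N := by exact_mod_cast (by omega : 0 < N)
  have hz : 1 ≤ z := by
    have : (1 : ℝ) ≤ z := (one_le_pow₀ hL1).trans hz1
    exact_mod_cast this
  set T : ℕ → ℝ → ℝ := fun h θ => ‖∑ n ∈ Icc 1 N, ((ff h n - gg z h n : ℝ) : ℂ) * ee ((n : ℝ) * θ)‖ with hTd
  set E := (Icc 1 N).filter (fun h => ∃ θ : ℝ, N / Real.log N ^ U < T h θ) with hE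
  refine ⟨E, filter_subset _ _, ?_, ?_⟩
  swap
  · intro h hh hhE θ
    by_contra hc
    push Not at hc
    exact hhE (mem_filter.2 ⟨hh, θ, hc⟩)
  -- the phases
  have hex : ∀ h : ℕ, ∃ θ : ℝ, h ∈ E → N / Real.log N ^ U < T h θ := by
    intro h
    by_cases hh : h ∈ E
    · obtain ⟨θ, hθ⟩ := (mem_filter.1 hh).2
      exact ⟨θ, fun _ => hθ⟩
    · exact ⟨0, fun h' => absurd h' hh⟩
  choose θ hθ using hex
  have e1 := (h1 N (by omega) z hz1 hz2 (fun x => ((ArithmeticFunction.vonMangoldt x : ℝ) : ℂ)) θ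
    (fun x hx => vm_le_log N x hx hL)).1
  have e2 := (h1 N (by omega) z hz1 hz2 (fun x => ((lamz z x : ℝ) : ℂ)) θ (fun x _ => by
    rw [Complex.norm_real, Real.norm_eq_abs]
    refine (h2 N (by omega) z hz hz2 x).trans ?_
    nlinarith)).2
  have hsum : ∑ h ∈ Icc 1 N, T h (θ h) ≤ 2 * ((N : ℝ) ^ 2 / Real.log N ^ (2 * U + 2)) := by
    have h4 : ∀ h ∈ Icc 1 N, T h (θ h) ≤
        ‖∑ x ∈ Icc 1 N, ((ArithmeticFunction.vonMangoldt x : ℝ) : ℂ) * DD z (x + h) * ee (θ h * x)‖ +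
        ‖∑ x ∈ Icc 1 N, DD z x * ((lamz z (x + h) : ℝ) : ℂ) * ee (θ h * x)‖ := by
      intro h _
      rw [hTd]
      simp only
      refine le_trans (le_of_eq ?_) (norm_add_le _ _)
      rw [← sum_add_distrib]
      congr 1
      apply sum_congr rfl
      intro n _
      rw [ff_gg, mul_comm (n : ℝ) (θ h)]
      ring
    refine (sum_le_sum h4).trans ?_
    rw [sum_add_distrib]
    linarith
  have hlow : (E.card : ℝ) * (N / Real.log N ^ U) ≤ ∑ h ∈ Icc 1 N, T h (θ h) := by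
    calc (E.card : ℝ) * (N / Real.log N ^ U) = ∑ _h ∈ E, (N : ℝ) / Real.log N ^ U := by
          rw [sum_const, nsmul_eq_mul]
      _ ≤ ∑ h ∈ E, T h (θ h) := sum_le_sum fun h hh => (hθ h hh).le
      _ ≤ ∑ h ∈ Icc 1 N, T h (θ h) := sum_le_sum_of_subset_of_nonneg (filter_subset _ _) fun h _ _ => norm_nonneg _
  have hLU : 0 < Real.log N ^ U := by positivity
  have h5 := hlow.trans hsum
  have h6 : (E.card : ℝ) * (N / Real.log N ^ U) ≤ (2 / Real.log N ^ 2) * (N / Real.log N ^ U) * (N / Real.log N ^ U) := by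
    refine h5.trans (le_of_eq ?_)
    rw [pow_add, two_mul U, pow_add]
    field_simp
  have h7 : (E.card : ℝ) ≤ (2 / Real.log N ^ 2) * (N / Real.log N ^ U) :=
    le_of_mul_le_mul_right h6 (by positivity)
  refine h7.trans ?_
  have h8 : 2 / Real.log N ^ 2 ≤ 1 := by
    rw [div_le_one (by positivity)]
    nlinarith
  calc (2 / Real.log N ^ 2) * (N / Real.log N ^ U) ≤ 1 * (N / Real.log N ^ U) := by gcongr
    _ = _ := one_mul _

end Pool.Agent.E8helper16.TP
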