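import Pool.Agent.E8helper16.TP.Asm1
import Pool.Agent.E8helper16.TP.Fou

set_option autoImplicit false

namespace Pool.Agent.E8helper16.TP

open Finset
open Pool.Agent.H807R2.Dav (ee)
open Pool.Agent.H373R2.T7 (lamz pz Vz mem_pz Vz_pos Vz_inv_small ev_L' ev_log' lamz_nonneg)

/-- the singular series of the progressions -/
noncomputable def S3 (h : ℕ) : ℝ := ∏' p : Nat.Primes, loc (QA h) p

/-- the singular series of the ternary problem -/
noncomputable def ST (h n : ℕ) : ℝ := ∏' p : Nat.Primes, loc (QT h n) p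

lemma ser_bound {C N L z s P : ℝ} {U B h : ℕ} (hC : 0 < C) (hL : 2 * C + 4 ≤ L) (hz : L ^ B ≤ z) (hB : U + 8 ≤ B)
    (hh : 1 ≤ h) (hhL : Real.log h ≤ L)
    (hs : C * (1 + Real.log h) ≤ z → |P - s| ≤ C * (1 + Real.log h) ^ 5 / z) :
    N ^ 2 / 2 * |P - s| ≤ (N ^ 2 / L ^ U) / 2 := by
  have hL4 : 4 ≤ L := by linarith
  have hL0 : 0 < L := by linarith
  have hL1 : 1 ≤ L := by linarith
  have hz8 : L ^ (U + 8) ≤ z := (pow_le_pow_right₀ hL1 hB).trans hz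
  have hz0 : 0 < z := lt_of_lt_of_le (by positivity) hz8
  have hlh : 0 ≤ Real.log h := Real.log_nonneg (by exact_mod_cast hh)
  have h2 : L ^ 2 ≤ z := (pow_le_pow_right₀ hL1 (by omega : 2 ≤ U + 8)).trans hz8
  have h3 : C * (1 + Real.log h) ≤ z := by
    have : C * (1 + Real.log h) ≤ C * (2 * L) := by
      apply mul_le_mul_of_nonneg_left _ hC.le
      linarith
    nlinarith
  have h4 := hs h3
  have h5 : C * (1 + Real.log h) ^ 5 / z ≤ C * (2 * L) ^ 5 / L ^ (U + 8) := by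
    apply div_le_div₀ (by positivity) _ (by positivity) hz8
    apply mul_le_mul_of_nonneg_left _ hC.le
    apply pow_le_pow_left₀ (by linarith)
    linarith
  have h6 : C * (2 * L) ^ 5 / L ^ (U + 8) = (32 * C / L ^ 3) / L ^ U := by
    rw [pow_add]
    field_simp
    ring
  have h7 : 32 * C / L ^ 3 ≤ 1 := by
    rw [div_le_one (by positivity)]
    have : 16 * L ≤ L ^ 3 := by nlinarith
    linarith
  have h8 : |P - s| ≤ 1 / L ^ U := by
    rw [h6] at h5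
    refine (h4.trans h5).trans ?_
    exact div_le_div_of_nonneg_right h7 (by positivity)
  calc N ^ 2 / 2 * |P - s| ≤ N ^ 2 / 2 * (1 / L ^ U) := by gcongr
    _ = _ := by ring

lemma final_add {x y m s P a X e1 e2 e3 e4 : ℝ} (h1 : |x - y| ≤ e1) (h2 : |y - a * P| ≤ e2) (h3 : a * |P - s| ≤ e3)
    (ha : 0 ≤ a) (he : e1 + e2 + e3 ≤ X) (_ : m = e4) : |x - s * a| ≤ X := by
  have h4 : x - s * a = (x - y) + (y - a * P) + a * (P - s) := by ring
  rw [h4]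
  refine (abs_add_three _ _ _).trans ?_
  rw [abs_mul a, abs_of_nonneg ha]
  linarith

theorem weighted (hF : S_FOU) (hM : S_MIN) (hTT : S_TTA) (hTel : S_TEL) (hS : S_SYS2) (hG : S_GOOD) (hSer : S_SER)
    (U : ℕ) : ∃ B N₀ : ℕ, ∀ N : ℕ, N₀ ≤ N → ∃ E : Finset ℕ, E ⊆ Icc 1 N ∧ (E.card : ℝ) ≤ N / Real.log N ^ U ∧
    ∀ h ∈ Icc 1 N, h ∉ E →
      (∀ (q : ℕ) (c : ℤ) (θ : ℝ), IsCoprime c (q : ℤ) → Real.log N ^ B ≤ q → (q : ℝ) ≤ N / Real.log N ^ B →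
        |θ - c / q| ≤ 1 / (q : ℝ) ^ 2 → ‖∑ n ∈ Icc 1 N, ((ff h n : ℝ) : ℂ) * ee ((n : ℝ) * θ)‖ ≤ N / Real.log N ^ U) ∧
      |∑ r ∈ tri 2 N, ff h r.1 * ff h (r.1 + r.2) * ff h (r.1 + 2 * r.2) - S3 h * ((N : ℝ) ^ 2 / 4)| ≤
        (N : ℝ) ^ 2 / Real.log N ^ U ∧
      ∀ n ≤ N, |∑ r ∈ tri 1 (n - 1), ff h r.1 * ff h r.2 * ff h (n - r.1 - r.2) - ST h n * ((n : ℝ) ^ 2 / 2)| ≤
        (N : ℝ) ^ 2 / Real.log N ^ U := by
  obtain ⟨BF, hBF⟩ := hF (U + 7)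
  obtain ⟨C, hC, hSer⟩ := hSer
  set B1 := max BF (U + 8) with hB1
  obtain ⟨m1, h1⟩ := hBF (B1 + 1)
  obtain ⟨Bm, m2, h2⟩ := hM (B1 + 1) (U + 1)
  obtain ⟨m3, h3⟩ := loc_A hS hG (B1 + 1) (U + 2)
  obtain ⟨m4, h4⟩ := loc_T hS hG (B1 + 1) (U + 2)
  obtain ⟨m5, h5⟩ := gg_le (B1 + 1)
  obtain ⟨m6, h6⟩ := ev_L' (2 * C + 4)
  obtain ⟨m7, h7⟩ := ev_log' (U + 8) 8
  refine ⟨Bm, m1 + m2 + m3 + m4 + m5 + m6 + m7 + 1, fun N hN => ?_⟩
  have hL := h6 N (by omega)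
  have a7 := h7 N (by omega)
  have hN1 : 1 ≤ N := by omega
  set L := Real.log N with hLd
  have hL4 : 4 ≤ L := by linarith
  have hL0 : 0 < L := by linarith
  have hL1 : 1 ≤ L := by linarith
  have hN0 : (0 : ℝ) < N := by exact_mod_cast hN1
  set z := ⌈L ^ B1⌉₊ with hzd
  have hz1 : L ^ B1 ≤ z := Nat.le_ceil _
  have hz2 : (z : ℝ) ≤ L ^ (B1 + 1) := by
    have h8 := (Nat.ceil_lt_add_one (show 0 ≤ L ^ B1 by positivity)).le
    have h9 : 1 ≤ L ^ B1 := one_le_pow₀ hL1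
    rw [pow_succ]
    nlinarith
  have hz : 1 ≤ z := by
    have : (1 : ℝ) ≤ z := (one_le_pow₀ hL1).trans hz1
    exact_mod_cast this
  have hzF : L ^ BF ≤ z := (pow_le_pow_right₀ hL1 (le_max_left _ _)).trans hz1
  obtain ⟨E, hE1, hE2, hE3⟩ := h1 N (by omega) z hzF hz2
  have hX0 : 0 ≤ (N : ℝ) ^ 2 / L ^ U := by positivity
  refine ⟨E, hE1, ?_, fun h hh hhE => ?_⟩
  · refine hE2.trans ?_
    apply div_le_div_of_nonneg_left hN0.le (by positivity)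
    exact pow_le_pow_right₀ hL1 (by omega)
  have hh' := mem_Icc.1 hh
  have hhL : Real.log h ≤ L := Real.log_le_log (by exact_mod_cast hh'.1) (by exact_mod_cast hh'.2)
  have hfou := hE3 h hh hhE
  have hFb : ∀ x ∈ Icc 1 N, |ff h x| ≤ 2 * L ^ 2 := fun x hx => by
    rw [abs_of_nonneg (ff_nonneg h x)]
    exact ff_le N h x hL1 hh hx
  have hGb : ∀ x ∈ Icc 1 N, |gg z h x| ≤ 2 * L ^ 2 := fun x _ => h5 N (by omega) z hz hz2 h x
  -- the errors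
  have e1 : 3 * ((N : ℝ) / L ^ (U + 7)) * (N * (4 * L ^ 4)) ≤ ((N : ℝ) ^ 2 / L ^ U) / 5 := by
    have : 3 * ((N : ℝ) / L ^ (U + 7)) * (N * (4 * L ^ 4)) = (12 / L ^ 3) * ((N : ℝ) ^ 2 / L ^ U) := by
      rw [pow_add]
      field_simp
      ring
    rw [this]
    have h8 : 12 / L ^ 3 ≤ 1 / 5 := by
      rw [div_le_div_iff₀ (by positivity) (by norm_num)]
      have : 64 ≤ L ^ 3 := by
        calc (64 : ℝ) = 4 ^ 3 := by norm_num
          _ ≤ L ^ 3 := pow_le_pow_left₀ (by norm_num) hL4 3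
      linarith
    nlinarith
  have e2 : (N : ℝ) * (8 * L ^ 6) ≤ ((N : ℝ) ^ 2 / L ^ U) / 16 := by
    rw [div_div, le_div_iff₀ (by positivity)]
    have h8 : √(N : ℝ) ≤ N := by
      rw [Real.sqrt_le_left hN0.le]
      have : (1 : ℝ) ≤ N := by exact_mod_cast hN1
      nlinarith
    have h9 : 8 * L ^ (U + 8) ≤ N := a7.trans h8
    have h10 : L ^ 6 * (L ^ U * 16) ≤ L ^ (U + 8) := by
      rw [show U + 8 = 6 + U + 2 by ring, pow_add, pow_add]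
      have : 16 ≤ L ^ 2 := by nlinarith
      have h11 : 0 < L ^ 6 * L ^ U := by positivity
      nlinarith
    calc (N : ℝ) * (8 * L ^ 6) * (L ^ U * 16) = N * (8 * (L ^ 6 * (L ^ U * 16))) := by ring
      _ ≤ N * (8 * L ^ (U + 8)) := by gcongr
      _ ≤ N * N := by gcongr
      _ = _ := by ring
  have e3 : (N : ℝ) ^ 2 / L ^ (U + 2) ≤ ((N : ℝ) ^ 2 / L ^ U) / 16 := by
    rw [pow_add, ← div_div]
    apply div_le_div_of_nonneg_left hX0 (by norm_num)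
    nlinarith
  refine ⟨fun q c θ hcop hq1 hq2 hθ => ?_, ?_, fun n hn => ?_⟩
  · have b1 := h2 N (by omega) z hz hz2 q hq1 hq2 c hcop θ hθ h
    have b2 := hfou θ
    have b3 : ∑ n ∈ Icc 1 N, ((ff h n : ℝ) : ℂ) * ee ((n : ℝ) * θ) =
        ∑ n ∈ Icc 1 N, ((ff h n - gg z h n : ℝ) : ℂ) * ee ((n : ℝ) * θ) +
        ∑ n ∈ Icc 1 N, ((gg z h n : ℝ) : ℂ) * ee ((n : ℝ) * θ) := by
      rw [← sum_add_distrib]
      apply sum_congr rfl
      intro n _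
      push_cast
      ring
    rw [b3]
    refine (norm_add_le _ _).trans ((add_le_add b2 b1).trans ?_)
    have b4 : (N : ℝ) / L ^ (U + 7) ≤ N / L ^ (U + 1) :=
      div_le_div_of_nonneg_left hN0.le (by positivity) (pow_le_pow_right₀ hL1 (by omega))
    have b5 : (N : ℝ) / L ^ (U + 1) ≤ (N / L ^ U) / 4 := by
      rw [pow_succ, ← div_div]
      exact div_le_div_of_nonneg_left (by positivity) (by norm_num) hL4
    have b6 : 0 ≤ (N : ℝ) / L ^ U := by positivity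
    linarith
  · have b1 := tel_A hTT hTel N (ff h) (gg z h) (N / L ^ (U + 7)) hfou hFb hGb
    have b2 := h3 N (by omega) z hz hz2 h
    obtain ⟨s, hs1, hs0, hs2⟩ := hSer h hh'.1 (QA h) (Or.inl rfl)
    have hs : S3 h = s := hs1.tprod_eq
    have b3 := ser_bound (N := N) (U := U) (h := h) (P := ∏ p ∈ pz z, loc (QA h) p) (s := s) hC hL
      hz1 (le_max_right _ _) hh'.1 hhL (hs2 z)
    rw [hs]
    have b4 : (N : ℝ) ^ 2 / 4 * |∏ p ∈ pz z, loc (QA h) p - s| ≤ ((N : ℝ) ^ 2 / L ^ U) / 4 := by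
      have : (N : ℝ) ^ 2 / 4 * |∏ p ∈ pz z, loc (QA h) p - s| = ((N : ℝ) ^ 2 / 2 * |∏ p ∈ pz z, loc (QA h) p - s|) / 2 := by ring
      rw [this]
      linarith
    exact final_add (m := 0) (e4 := 0) b1 b2 b4 (by positivity) (by linarith) rfl
  · have b1 := tel_T hTT hTel N (ff h) (gg z h) (N / L ^ (U + 7)) hfou hFb hGb n hn
    have b2 := h4 N (by omega) z hz hz2 h n hn
    obtain ⟨s, hs1, hs0, hs2⟩ := hSer h hh'.1 (QT h n) (Or.inr ⟨n, rfl⟩)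
    have hs : ST h n = s := hs1.tprod_eq
    have b3 := ser_bound (N := N) (U := U) (h := h) (P := ∏ p ∈ pz z, loc (QT h n) p) (s := s) hC hL
      hz1 (le_max_right _ _) hh'.1 hhL (hs2 z)
    rw [hs]
    have b4 : (n : ℝ) ^ 2 / 2 * |∏ p ∈ pz z, loc (QT h n) p - s| ≤ ((N : ℝ) ^ 2 / L ^ U) / 2 := by
      refine le_trans ?_ b3
      have : (n : ℝ) ≤ N := by exact_mod_cast hn
      gcongr
    exact final_add (m := 0) (e4 := 0) b1 b2 b4 (by positivity) (by linarith) rfl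

end Pool.Agent.E8helper16.TP
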