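import Pool.Agent.E8helper16.TP.Asm2

set_option autoImplicit false

namespace Pool.Agent.E8helper16.TP

open Finset
open Pool.Agent.H807R2.Dav (ee)
open Pool.Agent.H373R2.T7 (lamz pz Vz mem_pz Vz_pos Vz_inv_small ev_L' ev_log' lamz_nonneg)

lemma low_of (hSer : S_SER) (c : ℝ) (h : ℕ) (hh : 1 ≤ h) (Q : ℕ → ℕ → ℕ → Prop) (hQ : Q = QA h ∨ ∃ n, Q = QT h n)
    (hc : ∀ z : ℕ, c ≤ ∏ p ∈ pz z, loc Q p) : c ≤ ∏' p : Nat.Primes, loc Q p := by
  obtain ⟨C, hC, hSer⟩ := hSer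
  obtain ⟨s, hs1, hs0, hs2⟩ := hSer h hh Q hQ
  rw [hs1.tprod_eq]
  by_contra hlt
  push Not at hlt
  have hlh : 0 ≤ Real.log h := Real.log_nonneg (by exact_mod_cast hh)
  set z : ℕ := ⌈C * (1 + Real.log h)⌉₊ + ⌈C * (1 + Real.log h) ^ 5 / (c - s)⌉₊ + 1 with hz
  have hd : 0 < c - s := by linarith
  have hz1 : C * (1 + Real.log h) ≤ z := by
    have := Nat.le_ceil (C * (1 + Real.log h))
    rw [hz]; push_cast
    have h2 : (0 : ℝ) ≤ (⌈C * (1 + Real.log h) ^ 5 / (c - s)⌉₊ : ℝ) := Nat.cast_nonneg _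
    linarith
  have hz2 : C * (1 + Real.log h) ^ 5 / (c - s) < z := by
    have := Nat.le_ceil (C * (1 + Real.log h) ^ 5 / (c - s))
    rw [hz]; push_cast
    have h2 : (0 : ℝ) ≤ (⌈C * (1 + Real.log h)⌉₊ : ℝ) := Nat.cast_nonneg _
    linarith
  have hz0 : (0 : ℝ) < z := lt_of_le_of_lt (by positivity) hz2
  have h3 := hs2 z hz1
  have h4 := hc z
  have h5 : C * (1 + Real.log h) ^ 5 / z < c - s := by
    rw [div_lt_iff₀ hz0]
    rw [div_lt_iff₀ hd] at hz2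
    linarith [mul_comm (z : ℝ) (c - s)]
  have h6 := (abs_le.1 h3).2
  linarith

theorem low (hSer : S_SER) (hLow : S_LOW) (hG : S_GOOD) : ∃ c : ℝ, 0 < c ∧ ∀ h : ℕ, 1 ≤ h → Even h →
    c ≤ S3 h ∧ ∀ n : ℕ, Odd n → (3 ∣ h ∨ 3 ∣ n) → c ≤ ST h n := by
  obtain ⟨c, hc, hLow⟩ := hLow
  refine ⟨c, hc, fun h hh he => ⟨?_, fun n hn h3 => ?_⟩⟩
  · exact low_of hSer c h hh (QA h) (Or.inl rfl) (hLow (QA h) (hG.1 h) (hG.2.2.1 h he))
  · exact low_of hSer c h hh (QT h n) (Or.inr ⟨n, rfl⟩) (hLow (QT h n) (hG.2.1 h n) (hG.2.2.2 h n he hn h3))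

/-- the three terms of a progression -/
def aA : Fin 3 → ℕ × ℕ → ℕ := ![fun r => r.1, fun r => r.1 + r.2, fun r => r.1 + 2 * r.2]

/-- the three summands -/
def aT (n : ℕ) : Fin 3 → ℕ × ℕ → ℕ := ![fun r => r.1, fun r => r.2, fun r => n - r.1 - r.2]

lemma mem_tri {k n : ℕ} {r : ℕ × ℕ} : r ∈ tri k n ↔ ((1 ≤ r.1 ∧ r.1 ≤ n) ∧ 1 ≤ r.2 ∧ r.2 ≤ n) ∧ r.1 + k * r.2 ≤ n := by
  unfold tri
  rw [mem_filter, mem_product, mem_Icc, mem_Icc]

lemma card_inj (T : Finset (ℕ × ℕ)) (f : ℕ × ℕ → ℕ) (N : ℕ) (hf : ∀ r ∈ T, f r ∈ Icc 1 N)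
    (hi : ∀ r ∈ T, ∀ s ∈ T, f r = f s → r = s) : (T.card : ℝ) ≤ N := by
  have h1 : T.card ≤ (Icc 1 N).card := card_le_card_of_injOn f hf fun r hr s hs h => hi r hr s hs h
  rw [Nat.card_Icc, Nat.add_sub_cancel] at h1
  exact_mod_cast h1

open Classical in
theorem counts_A (hCW : S_CW) {c : ℝ} (hc : 0 < c) (ε : ℝ) (hε : 0 < ε) : ∃ N₀ : ℕ, ∀ N : ℕ, N₀ ≤ N → ∀ h ∈ Icc 1 N,
    c ≤ S3 h → |∑ r ∈ tri 2 N, ff h r.1 * ff h (r.1 + r.2) * ff h (r.1 + 2 * r.2) - S3 h * ((N : ℝ) ^ 2 / 4)| ≤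
      (N : ℝ) ^ 2 / Real.log N →
    (1 - ε) * (S3 h * ((N : ℝ) ^ 2 / 4) / Real.log N ^ 6) ≤
      (((tri 2 N).filter (fun r => Pair h r.1 ∧ Pair h (r.1 + r.2) ∧ Pair h (r.1 + 2 * r.2))).card : ℝ) ∧
    (((tri 2 N).filter (fun r => Pair h r.1 ∧ Pair h (r.1 + r.2) ∧ Pair h (r.1 + 2 * r.2))).card : ℝ) ≤
      (1 + ε) * (S3 h * ((N : ℝ) ^ 2 / 4) / Real.log N ^ 6) := by
  obtain ⟨m1, h1⟩ := hCW ε (c / 4) hε (by positivity)
  refine ⟨m1, fun N hN h hh hcs hW => ?_⟩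
  have key := h1 N hN h hh (tri 2 N) aA ?_ ?_ (S3 h * ((N : ℝ) ^ 2 / 4)) ?_ ?_
  · have e : (tri 2 N).filter (fun r => ∀ i, Pair h (aA i r)) =
        (tri 2 N).filter (fun r => Pair h r.1 ∧ Pair h (r.1 + r.2) ∧ Pair h (r.1 + 2 * r.2)) := by
      apply filter_congr
      intro r _
      rw [Fin.forall_fin_succ, Fin.forall_fin_succ, Fin.forall_fin_one]
      rfl
    rw [e] at key
    exact key
  · intro r hr i
    rw [mem_tri] at hr
    rw [mem_Icc]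
    fin_cases i
    · show 1 ≤ r.1 ∧ r.1 ≤ N
      omega
    · show 1 ≤ r.1 + r.2 ∧ r.1 + r.2 ≤ N
      omega
    · show 1 ≤ r.1 + 2 * r.2 ∧ r.1 + 2 * r.2 ≤ N
      omega
  · intro i x
    apply card_inj _ (fun r => r.2) N
    · intro r hr
      have hr' := mem_tri.1 (mem_filter.1 hr).1
      rw [mem_Icc]
      exact hr'.1.2
    · intro r hr s hs hrs
      have h2 := (mem_filter.1 hr).2
      have h3 := (mem_filter.1 hs).2
      have h4 : aA i r = aA i s := by rw [h2, h3]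
      have hrs' : r.2 = s.2 := hrs
      refine Prod.ext ?_ hrs'
      fin_cases i
      · have h5 : r.1 = s.1 := h4
        exact h5
      · have h5 : r.1 + r.2 = s.1 + s.2 := h4
        omega
      · have h5 : r.1 + 2 * r.2 = s.1 + 2 * s.2 := h4
        omega
  · nlinarith [mul_le_mul_of_nonneg_right hcs (show (0 : ℝ) ≤ (N : ℝ) ^ 2 / 4 by positivity)]
  · exact hW

open Classical in
theorem counts_T (hCW : S_CW) {c : ℝ} (hc : 0 < c) (ε : ℝ) (hε : 0 < ε) : ∃ N₀ : ℕ, ∀ N : ℕ, N₀ ≤ N → ∀ h ∈ Icc 1 N,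
    ∀ n : ℕ, ε * N ≤ n → n ≤ N → c ≤ ST h n →
    |∑ r ∈ tri 1 (n - 1), ff h r.1 * ff h r.2 * ff h (n - r.1 - r.2) - ST h n * ((n : ℝ) ^ 2 / 2)| ≤
      (N : ℝ) ^ 2 / Real.log N →
    (1 - ε) * (ST h n * ((n : ℝ) ^ 2 / 2) / Real.log N ^ 6) ≤
      (((tri 1 (n - 1)).filter (fun r => Pair h r.1 ∧ Pair h r.2 ∧ Pair h (n - r.1 - r.2))).card : ℝ) ∧
    (((tri 1 (n - 1)).filter (fun r => Pair h r.1 ∧ Pair h r.2 ∧ Pair h (n - r.1 - r.2))).card : ℝ) ≤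
      (1 + ε) * (ST h n * ((n : ℝ) ^ 2 / 2) / Real.log N ^ 6) := by
  obtain ⟨m1, h1⟩ := hCW ε (c * ε ^ 2 / 2) hε (by positivity)
  refine ⟨m1, fun N hN h hh n hn1 hn2 hcs hW => ?_⟩
  have key := h1 N hN h hh (tri 1 (n - 1)) (aT n) ?_ ?_ (ST h n * ((n : ℝ) ^ 2 / 2)) ?_ ?_
  · have e : (tri 1 (n - 1)).filter (fun r => ∀ i, Pair h (aT n i r)) =
        (tri 1 (n - 1)).filter (fun r => Pair h r.1 ∧ Pair h r.2 ∧ Pair h (n - r.1 - r.2)) := by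
      apply filter_congr
      intro r _
      rw [Fin.forall_fin_succ, Fin.forall_fin_succ, Fin.forall_fin_one]
      rfl
    rw [e] at key
    exact key
  · intro r hr i
    rw [mem_tri] at hr
    rw [mem_Icc]
    fin_cases i
    · show 1 ≤ r.1 ∧ r.1 ≤ N
      omega
    · show 1 ≤ r.2 ∧ r.2 ≤ N
      omega
    · show 1 ≤ n - r.1 - r.2 ∧ n - r.1 - r.2 ≤ N
      omega
  · intro i x
    fin_cases i
    · apply card_inj _ (fun r => r.2) N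
      · intro r hr
        have hr' := mem_tri.1 (mem_filter.1 hr).1
        rw [mem_Icc]
        show 1 ≤ r.2 ∧ r.2 ≤ N
        omega
      · intro r hr s hs hrs
        have h2 : r.1 = x := (mem_filter.1 hr).2
        have h3 : s.1 = x := (mem_filter.1 hs).2
        exact Prod.ext (by rw [h2, h3]) hrs
    · apply card_inj _ (fun r => r.1) N
      · intro r hr
        have hr' := mem_tri.1 (mem_filter.1 hr).1
        rw [mem_Icc]
        show 1 ≤ r.1 ∧ r.1 ≤ N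
        omega
      · intro r hr s hs hrs
        have h2 : r.2 = x := (mem_filter.1 hr).2
        have h3 : s.2 = x := (mem_filter.1 hs).2
        exact Prod.ext hrs (by rw [h2, h3])
    · apply card_inj _ (fun r => r.2) N
      · intro r hr
        have hr' := mem_tri.1 (mem_filter.1 hr).1
        rw [mem_Icc]
        show 1 ≤ r.2 ∧ r.2 ≤ N
        omega
      · intro r hr s hs hrs
        have h2 : n - r.1 - r.2 = x := (mem_filter.1 hr).2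
        have h3 : n - s.1 - s.2 = x := (mem_filter.1 hs).2
        have hr' := mem_tri.1 (mem_filter.1 hr).1
        have hs' := mem_tri.1 (mem_filter.1 hs).1
        have hrs' : r.2 = s.2 := hrs
        refine Prod.ext ?_ hrs'
        omega
  · have h2 : (ε * N) ^ 2 ≤ (n : ℝ) ^ 2 := pow_le_pow_left₀ (by positivity) hn1 2
    calc c * ε ^ 2 / 2 * (N : ℝ) ^ 2 = c * ((ε * N) ^ 2 / 2) := by ring
      _ ≤ c * ((n : ℝ) ^ 2 / 2) := by gcongr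
      _ ≤ ST h n * ((n : ℝ) ^ 2 / 2) := by gcongr
  · exact hW

end Pool.Agent.E8helper16.TP
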