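import Pool.Agent.E8helper16.TP.StmD

set_option autoImplicit false

/-!
# TP-14 (CW): from weights to numbers of primes
-/

namespace Pool.Agent.E8helper16.TP44

open Finset Filter Topology
open Pool.Agent.E8helper16.TP

lemma ff_nonneg (h n : ℕ) : 0 ≤ ff h n :=
  mul_nonneg ArithmeticFunction.vonMangoldt_nonneg ArithmeticFunction.vonMangoldt_nonneg

lemma ff_le {N h x : ℕ} (hh : h ∈ Icc 1 N) (hx : x ∈ Icc 1 N) :
    ff h x ≤ Real.log N * (Real.log N + Real.log 2) := by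
  rw [mem_Icc] at hh hx
  have hN : (0 : ℝ) < N := by exact_mod_cast (by omega : 0 < N)
  have hx0 : (0 : ℝ) < x := by exact_mod_cast (by omega : 0 < x)
  have hxh : (0 : ℝ) < ((x + h : ℕ) : ℝ) := by exact_mod_cast (by omega : 0 < x + h)
  have h1 : ArithmeticFunction.vonMangoldt x ≤ Real.log N :=
    ArithmeticFunction.vonMangoldt_le_log.trans (Real.log_le_log hx0 (by exact_mod_cast hx.2))
  have h2 : ArithmeticFunction.vonMangoldt (x + h) ≤ Real.log N + Real.log 2 := by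
    refine ArithmeticFunction.vonMangoldt_le_log.trans ?_
    rw [← Real.log_mul hN.ne' (by norm_num)]
    refine Real.log_le_log hxh ?_
    have : x + h ≤ N * 2 := by omega
    exact_mod_cast this
  have h3 : (0 : ℝ) ≤ Real.log N := Real.log_natCast_nonneg N
  exact mul_le_mul h1 h2 ArithmeticFunction.vonMangoldt_nonneg h3

lemma ff_ge {h x : ℕ} {y : ℝ} (hy : 0 < y) (hy1 : 0 ≤ Real.log y) (hP : Pair h x) (hyx : y < x) :
    Real.log y ^ 2 ≤ ff h x := by
  unfold ff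
  rw [ArithmeticFunction.vonMangoldt_apply_prime hP.1, ArithmeticFunction.vonMangoldt_apply_prime hP.2, sq]
  refine mul_le_mul (Real.log_le_log hy hyx.le) (Real.log_le_log hy ?_) hy1
    (hy1.trans (Real.log_le_log hy hyx.le))
  push_cast
  have : (0 : ℝ) ≤ h := Nat.cast_nonneg h
  linarith

open Classical in
/-- the sum over the triples with a bad entry -/
lemma bad_sum {N h : ℕ} (T : Finset (ℕ × ℕ)) (a : ℕ × ℕ → ℕ) (ha : ∀ r ∈ T, a r ∈ Icc 1 N)
    (hc : ∀ x : ℕ, ((T.filter (fun r => a r = x)).card : ℝ) ≤ N) {B : ℝ}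
    (hB : ∑ x ∈ Icc 1 N, (if x.Prime ∧ (x + h).Prime then 0 else ff h x) ≤ B) :
    ∑ r ∈ T.filter (fun r => ¬ Pair h (a r)), ff h (a r) ≤ N * B := by
  have hN0 : (0 : ℝ) ≤ N := Nat.cast_nonneg N
  calc ∑ r ∈ T.filter (fun r => ¬ Pair h (a r)), ff h (a r)
      = ∑ r ∈ T, (if (a r).Prime ∧ (a r + h).Prime then 0 else ff h (a r)) := by
        rw [sum_filter]
        refine sum_congr rfl fun r _ => ?_
        by_cases hp : (a r).Prime ∧ (a r + h).Prime
        · have : Pair h (a r) := hp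
          simp [this, hp]
        · have : ¬ Pair h (a r) := hp
          simp [this, hp]
    _ = ∑ x ∈ Icc 1 N, ∑ r ∈ T.filter (fun r => a r = x),
          (if (a r).Prime ∧ (a r + h).Prime then 0 else ff h (a r)) := by
        rw [sum_fiberwise_of_maps_to ha]
    _ = ∑ x ∈ Icc 1 N, ((T.filter (fun r => a r = x)).card : ℝ) *
          (if x.Prime ∧ (x + h).Prime then 0 else ff h x) := by
        refine sum_congr rfl fun x _ => ?_
        rw [← nsmul_eq_mul, ← sum_const]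
        refine sum_congr rfl fun r hr => ?_
        rw [(mem_filter.1 hr).2]
    _ ≤ ∑ x ∈ Icc 1 N, (N : ℝ) * (if x.Prime ∧ (x + h).Prime then 0 else ff h x) := by
        refine sum_le_sum fun x _ => mul_le_mul_of_nonneg_right (hc x) ?_
        split_ifs
        · exact le_rfl
        · exact ff_nonneg h x
    _ ≤ N * B := by
        rw [← mul_sum]
        exact mul_le_mul_of_nonneg_left hB hN0

open Classical in
lemma small_card {N : ℕ} (T : Finset (ℕ × ℕ)) (a : ℕ × ℕ → ℕ) (ha : ∀ r ∈ T, a r ∈ Icc 1 N)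
    (hc : ∀ x : ℕ, ((T.filter (fun r => a r = x)).card : ℝ) ≤ N) {y : ℝ} (hy : 0 ≤ y) :
    ((T.filter (fun r => ((a r : ℕ) : ℝ) ≤ y)).card : ℝ) ≤ y * N := by
  have hN0 : (0 : ℝ) ≤ N := Nat.cast_nonneg N
  have hsub : T.filter (fun r => ((a r : ℕ) : ℝ) ≤ y) ⊆
      (Icc 1 ⌊y⌋₊).biUnion (fun x => T.filter (fun r => a r = x)) := by
    intro r hr
    rw [mem_filter] at hr
    rw [mem_biUnion]
    refine ⟨a r, ?_, mem_filter.2 ⟨hr.1, rfl⟩⟩
    rw [mem_Icc]
    exact ⟨(mem_Icc.1 (ha r hr.1)).1, Nat.le_floor hr.2⟩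
  calc ((T.filter (fun r => ((a r : ℕ) : ℝ) ≤ y)).card : ℝ)
      ≤ (((Icc 1 ⌊y⌋₊).biUnion (fun x => T.filter (fun r => a r = x))).card : ℝ) := by
        exact_mod_cast card_le_card hsub
    _ ≤ ∑ x ∈ Icc 1 ⌊y⌋₊, ((T.filter (fun r => a r = x)).card : ℝ) := by
        exact_mod_cast card_biUnion_le
    _ ≤ ∑ x ∈ Icc 1 ⌊y⌋₊, (N : ℝ) := sum_le_sum fun x _ => hc x
    _ = ⌊y⌋₊ * N := by rw [sum_const, Nat.card_Icc, nsmul_eq_mul]; simp
    _ ≤ y * N := mul_le_mul_of_nonneg_right (Nat.floor_le hy) hN0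

/-- the lower factor tends to `1` -/
lemma tendsto_low (δ : ℝ) : Tendsto (fun L : ℝ => (1 - (1 / δ) * (L⁻¹ + 24 * (L⁻¹ * L⁻¹))) / (1 + Real.log 2 * L⁻¹) ^ 3)
    atTop (𝓝 1) := by
  have h1 : Tendsto (fun L : ℝ => L⁻¹) atTop (𝓝 0) := tendsto_inv_atTop_zero
  have h2 : Tendsto (fun L : ℝ => (1 - (1 / δ) * (L⁻¹ + 24 * (L⁻¹ * L⁻¹))) / (1 + Real.log 2 * L⁻¹) ^ 3)
      atTop (𝓝 ((1 - (1 / δ) * (0 + 24 * (0 * 0))) / (1 + Real.log 2 * 0) ^ 3)) := by
    refine Tendsto.div ?_ ?_ (by norm_num)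
    · exact tendsto_const_nhds.sub (tendsto_const_nhds.mul (h1.add (tendsto_const_nhds.mul (h1.mul h1))))
    · exact (tendsto_const_nhds.add (tendsto_const_nhds.mul h1)).pow 3
  simpa using h2

/-- the upper factor tends to `1` -/
lemma tendsto_up (δ : ℝ) : Tendsto (fun L : ℝ => (3 / δ) * (L⁻¹ * L⁻¹) +
    (1 + (1 / δ) * L⁻¹) / (1 - 8 * (Real.log L / L)) ^ 6) atTop (𝓝 1) := by
  have h1 : Tendsto (fun L : ℝ => L⁻¹) atTop (𝓝 0) := tendsto_inv_atTop_zero
  have h3 : Tendsto (fun L : ℝ => Real.log L / L) atTop (𝓝 0) :=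
    Real.isLittleO_log_id_atTop.tendsto_div_nhds_zero
  have h2 : Tendsto (fun L : ℝ => (3 / δ) * (L⁻¹ * L⁻¹) +
    (1 + (1 / δ) * L⁻¹) / (1 - 8 * (Real.log L / L)) ^ 6) atTop (𝓝 ((3 / δ) * (0 * 0) +
    (1 + (1 / δ) * 0) / (1 - 8 * 0) ^ 6)) := by
    refine Tendsto.add (tendsto_const_nhds.mul (h1.mul h1)) (Tendsto.div ?_ ?_ (by norm_num))
    · exact tendsto_const_nhds.add (tendsto_const_nhds.mul h1)
    · exact (tendsto_const_nhds.sub (tendsto_const_nhds.mul h3)).pow 6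
  simpa using h2

theorem t_CW : S_PP → S_CW := by
  classical
  intro hPP ε δ hε hδ
  obtain ⟨N₁, hN₁⟩ := hPP 6
  have hlog : Tendsto (fun N : ℕ => Real.log N) atTop atTop :=
    Real.tendsto_log_atTop.comp tendsto_natCast_atTop_atTop
  have e1 := hlog.eventually ((tendsto_low δ).eventually_const_le (show (1 - ε) < 1 by linarith))
  have e2 := hlog.eventually ((tendsto_up δ).eventually_le_const (show (1 : ℝ) < 1 + ε by linarith))
  have h3 : Tendsto (fun L : ℝ => Real.log L / L) atTop (𝓝 0) :=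
    Real.isLittleO_log_id_atTop.tendsto_div_nhds_zero
  have e3 := hlog.eventually (h3.eventually_le_const (show (0 : ℝ) < 1 / 16 by norm_num))
  have e4 := hlog.eventually (eventually_ge_atTop (1 : ℝ))
  obtain ⟨N₀, hN₀⟩ := eventually_atTop.1 (((e1.and e2).and (e3.and e4)).and (eventually_ge_atTop (max N₁ 1)))
  refine ⟨N₀, fun N hN h hh T a ha hc M hM hW => ?_⟩
  obtain ⟨⟨⟨f1, f2⟩, f3, f4⟩, f5⟩ := hN₀ N hN
  set L := Real.log N with hL
  have hL0 : 0 < L := by linarith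
  have hNN1 : N₁ ≤ N := (le_max_left _ _).trans f5
  have hN1 : 1 ≤ N := (le_max_right _ _).trans f5
  have hNr : (1 : ℝ) ≤ N := by exact_mod_cast hN1
  have hNp : (0 : ℝ) < N := by linarith
  have hMp : 0 < M := lt_of_lt_of_le (by positivity) hM
  have hN2M : (N : ℝ) ^ 2 ≤ M / δ := by
    rw [le_div_iff₀ hδ]
    linarith
  have hl2 : 0 < Real.log 2 := Real.log_pos (by norm_num)
  have hl21 : Real.log 2 ≤ 1 := by
    have := Real.log_two_lt_d9
    linarith
  obtain ⟨hW1, hW2⟩ := abs_le.1 hW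
  set w : ℕ × ℕ → ℝ := fun r => ff h (a 0 r) * ff h (a 1 r) * ff h (a 2 r) with hw
  have hw0 : ∀ r, 0 ≤ w r := fun r => mul_nonneg (mul_nonneg (ff_nonneg _ _) (ff_nonneg _ _)) (ff_nonneg _ _)
  set Tp := T.filter (fun r => ∀ i, Pair h (a i r)) with hTp
  have hPPN := hN₁ N hNN1 h hh
  set C := L * (L + Real.log 2) with hC
  have hC0 : 0 < C := by positivity
  have hffC : ∀ r ∈ T, ∀ i, ff h (a i r) ≤ C := fun r hr i => ff_le hh (ha r hr i)
  -- lower bound
  have low1 : ∑ r ∈ T, w r ≤ Tp.card * C ^ 3 + 3 * (C ^ 2 * (N * (N / L ^ 6))) := by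
    have s1 : ∑ r ∈ T, w r = ∑ r ∈ Tp, w r + ∑ r ∈ T.filter (fun r => ¬ ∀ i, Pair h (a i r)), w r := by
      rw [hTp, sum_filter_add_sum_filter_not]
    have s2 : ∑ r ∈ Tp, w r ≤ Tp.card * C ^ 3 := by
      rw [← nsmul_eq_mul]
      refine sum_le_card_nsmul _ _ _ fun r hr => ?_
      have hrT := (mem_filter.1 hr).1
      have h0 := hffC r hrT 0
      have h1 := hffC r hrT 1
      have h2 := hffC r hrT 2
      calc w r = ff h (a 0 r) * ff h (a 1 r) * ff h (a 2 r) := rfl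
        _ ≤ C * C * C := mul_le_mul (mul_le_mul h0 h1 (ff_nonneg _ _) hC0.le) h2 (ff_nonneg _ _) (by positivity)
        _ = C ^ 3 := by ring
    have s3 : ∑ r ∈ T.filter (fun r => ¬ ∀ i, Pair h (a i r)), w r ≤
        ∑ i : Fin 3, ∑ r ∈ T.filter (fun r => ¬ Pair h (a i r)), C ^ 2 * ff h (a i r) := by
      have s31 : ∀ r ∈ T, (if ¬ ∀ i, Pair h (a i r) then w r else 0) ≤
          ∑ i : Fin 3, (if ¬ Pair h (a i r) then C ^ 2 * ff h (a i r) else 0) := by
        intro r hr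
        have hnn : ∀ i : Fin 3, 0 ≤ (if ¬ Pair h (a i r) then C ^ 2 * ff h (a i r) else 0) := by
          intro i
          split_ifs
          · exact le_rfl
          · exact mul_nonneg (by positivity) (ff_nonneg _ _)
        by_cases hp : ∀ i, Pair h (a i r)
        · simp only [hp, not_true, if_false]
          simp
        · rw [if_pos hp]
          push Not at hp
          obtain ⟨i, hi⟩ := hp
          refine le_trans ?_ (single_le_sum (fun j _ => hnn j) (mem_univ i))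
          rw [if_pos hi]
          have h0 := hffC r hr 0
          have h1 := hffC r hr 1
          have h2 := hffC r hr 2
          have g0 := ff_nonneg h (a 0 r)
          have g1 := ff_nonneg h (a 1 r)
          have g2 := ff_nonneg h (a 2 r)
          fin_cases i
          · calc w r = ff h (a 0 r) * ff h (a 1 r) * ff h (a 2 r) := rfl
              _ = ff h (a 1 r) * ff h (a 2 r) * ff h (a 0 r) := by ring
              _ ≤ (C * C) * ff h (a 0 r) :=
                mul_le_mul_of_nonneg_right (mul_le_mul h1 h2 g2 hC0.le) g0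
              _ = C ^ 2 * ff h (a 0 r) := by ring
          · calc w r = ff h (a 0 r) * ff h (a 1 r) * ff h (a 2 r) := rfl
              _ = ff h (a 0 r) * ff h (a 2 r) * ff h (a 1 r) := by ring
              _ ≤ (C * C) * ff h (a 1 r) :=
                mul_le_mul_of_nonneg_right (mul_le_mul h0 h2 g2 hC0.le) g1
              _ = C ^ 2 * ff h (a 1 r) := by ring
          · calc w r = ff h (a 0 r) * ff h (a 1 r) * ff h (a 2 r) := rfl
              _ ≤ (C * C) * ff h (a 2 r) :=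
                mul_le_mul_of_nonneg_right (mul_le_mul h0 h1 g1 hC0.le) g2
              _ = C ^ 2 * ff h (a 2 r) := by ring
      calc ∑ r ∈ T.filter (fun r => ¬ ∀ i, Pair h (a i r)), w r
          = ∑ r ∈ T, (if ¬ ∀ i, Pair h (a i r) then w r else 0) := sum_filter _ _
        _ ≤ ∑ r ∈ T, ∑ i : Fin 3, (if ¬ Pair h (a i r) then C ^ 2 * ff h (a i r) else 0) := sum_le_sum s31
        _ = ∑ i : Fin 3, ∑ r ∈ T, (if ¬ Pair h (a i r) then C ^ 2 * ff h (a i r) else 0) := sum_comm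
        _ = _ := by
            refine sum_congr rfl fun i _ => ?_
            rw [sum_filter]
    have s4 : ∀ i : Fin 3, ∑ r ∈ T.filter (fun r => ¬ Pair h (a i r)), C ^ 2 * ff h (a i r) ≤
        C ^ 2 * (N * (N / L ^ 6)) := by
      intro i
      rw [← mul_sum]
      exact mul_le_mul_of_nonneg_left (bad_sum T (a i) (fun r hr => ha r hr i) (hc i) hPPN) (by positivity)
    have s5 : ∑ i : Fin 3, ∑ r ∈ T.filter (fun r => ¬ Pair h (a i r)), C ^ 2 * ff h (a i r) ≤
        3 * (C ^ 2 * (N * (N / L ^ 6))) := by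
      calc _ ≤ ∑ i : Fin 3, C ^ 2 * (N * (N / L ^ 6)) := sum_le_sum fun i _ => s4 i
        _ = 3 * (C ^ 2 * (N * (N / L ^ 6))) := by
          rw [sum_const, card_univ, Fintype.card_fin, nsmul_eq_mul]
          norm_num
    linarith
  -- upper bound
  set y := (N : ℝ) / L ^ 8 with hy
  have hy0 : 0 < y := by positivity
  have hlogy : Real.log y = L - 8 * Real.log L := by
    rw [hy, Real.log_div hNp.ne' (by positivity), Real.log_pow, ← hL]
    norm_num
  have hlogy2 : L / 2 ≤ Real.log y := by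
    rw [hlogy]
    rw [div_le_iff₀ hL0] at f3
    linarith
  have hlogy0 : 0 < Real.log y := by linarith
  have up1 : (Tp.card : ℝ) ≤ 3 * (y * N) + (∑ r ∈ T, w r) / Real.log y ^ 6 := by
    have u0 : Tp ⊆ (univ.biUnion (fun i : Fin 3 => T.filter (fun r => ((a i r : ℕ) : ℝ) ≤ y))) ∪
        Tp.filter (fun r => ∀ i, y < a i r) := by
      intro r hr
      rw [mem_union, mem_biUnion, mem_filter]
      by_cases hq : ∀ i, y < a i r
      · exact Or.inr ⟨hr, hq⟩
      · push Not at hq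
        obtain ⟨i, hi⟩ := hq
        exact Or.inl ⟨i, mem_univ i, mem_filter.2 ⟨(mem_filter.1 hr).1, hi⟩⟩
    have u1 : (Tp.card : ℝ) ≤ ∑ i : Fin 3, ((T.filter (fun r => ((a i r : ℕ) : ℝ) ≤ y)).card : ℝ) +
        ((Tp.filter (fun r => ∀ i, y < a i r)).card : ℝ) := by
      have := (card_le_card u0).trans (card_union_le _ _)
      have h2 := this.trans (Nat.add_le_add_right card_biUnion_le _)
      exact_mod_cast h2
    have u2 : ∑ i : Fin 3, ((T.filter (fun r => ((a i r : ℕ) : ℝ) ≤ y)).card : ℝ) ≤ 3 * (y * N) := by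
      calc _ ≤ ∑ i : Fin 3, y * (N : ℝ) :=
            sum_le_sum fun i _ => small_card T (a i) (fun r hr => ha r hr i) (hc i) hy0.le
        _ = 3 * (y * N) := by
          rw [sum_const, card_univ, Fintype.card_fin, nsmul_eq_mul]
          norm_num
    have u3 : ((Tp.filter (fun r => ∀ i, y < a i r)).card : ℝ) * Real.log y ^ 6 ≤ ∑ r ∈ T, w r := by
      calc ((Tp.filter (fun r => ∀ i, y < a i r)).card : ℝ) * Real.log y ^ 6
          ≤ ∑ r ∈ Tp.filter (fun r => ∀ i, y < a i r), w r := by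
            rw [← nsmul_eq_mul]
            refine card_nsmul_le_sum _ _ _ fun r hr => ?_
            rw [mem_filter] at hr
            have hp := (mem_filter.1 hr.1).2
            have g0 := ff_ge hy0 hlogy0.le (hp 0) (hr.2 0)
            have g1 := ff_ge hy0 hlogy0.le (hp 1) (hr.2 1)
            have g2 := ff_ge hy0 hlogy0.le (hp 2) (hr.2 2)
            have q : 0 ≤ Real.log y ^ 2 := by positivity
            calc Real.log y ^ 6 = Real.log y ^ 2 * Real.log y ^ 2 * Real.log y ^ 2 := by ring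
              _ ≤ ff h (a 0 r) * ff h (a 1 r) * ff h (a 2 r) :=
                mul_le_mul (mul_le_mul g0 g1 q (ff_nonneg _ _)) g2 q (mul_nonneg (ff_nonneg _ _) (ff_nonneg _ _))
        _ ≤ ∑ r ∈ T, w r := sum_le_sum_of_subset_of_nonneg
            ((filter_subset _ _).trans (filter_subset _ _)) fun r _ _ => hw0 r
    have u4 : ((Tp.filter (fun r => ∀ i, y < a i r)).card : ℝ) ≤ (∑ r ∈ T, w r) / Real.log y ^ 6 := by
      rw [le_div_iff₀ (by positivity)]
      exact u3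
    linarith
  have hL6 : 0 < L ^ 6 := by positivity
  constructor
  · -- lower
    have hCe : C = L ^ 2 * (1 + Real.log 2 * L⁻¹) := by
      rw [hC]; field_simp
    have hC2 : C ≤ 2 * L ^ 2 := by
      rw [hC]; nlinarith
    have hC3 : 0 < C ^ 3 := by positivity
    have b1 : 3 * (C ^ 2 * (N * (N / L ^ 6))) ≤ 24 * ((N : ℝ) ^ 2 * (L⁻¹ * L⁻¹)) := by
      have : C ^ 2 ≤ 4 * L ^ 4 := by
        calc C ^ 2 ≤ (2 * L ^ 2) ^ 2 := pow_le_pow_left₀ hC0.le hC2 2
          _ = 4 * L ^ 4 := by ring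
      have h' : 3 * (C ^ 2 * (N * (N / L ^ 6))) ≤ 3 * (4 * L ^ 4 * (N * (N / L ^ 6))) := by gcongr
      have h'' : 3 * (4 * L ^ 4 * (N * (N / L ^ 6))) = 12 * ((N : ℝ) ^ 2 * (L⁻¹ * L⁻¹)) := by
        field_simp
        ring
      have h''' : 0 ≤ (N : ℝ) ^ 2 * (L⁻¹ * L⁻¹) := by positivity
      linarith
    have b2 : M * (1 - (1 / δ) * (L⁻¹ + 24 * (L⁻¹ * L⁻¹))) ≤ Tp.card * C ^ 3 := by
      have b3 : (N : ℝ) ^ 2 / L + 24 * ((N : ℝ) ^ 2 * (L⁻¹ * L⁻¹)) ≤ M * ((1 / δ) * (L⁻¹ + 24 * (L⁻¹ * L⁻¹))) := by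
        calc (N : ℝ) ^ 2 / L + 24 * ((N : ℝ) ^ 2 * (L⁻¹ * L⁻¹)) = (N : ℝ) ^ 2 * (L⁻¹ + 24 * (L⁻¹ * L⁻¹)) := by
              rw [div_eq_mul_inv]; ring
          _ ≤ (M / δ) * (L⁻¹ + 24 * (L⁻¹ * L⁻¹)) := by
              refine mul_le_mul_of_nonneg_right hN2M (by positivity)
          _ = M * ((1 / δ) * (L⁻¹ + 24 * (L⁻¹ * L⁻¹))) := by ring
      have : M * (1 - (1 / δ) * (L⁻¹ + 24 * (L⁻¹ * L⁻¹))) = M - M * ((1 / δ) * (L⁻¹ + 24 * (L⁻¹ * L⁻¹))) := by ring
      rw [this]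
      linarith
    have b4 : (1 - ε) * (M / L ^ 6) ≤
        (1 - (1 / δ) * (L⁻¹ + 24 * (L⁻¹ * L⁻¹))) / (1 + Real.log 2 * L⁻¹) ^ 3 * (M / L ^ 6) :=
      mul_le_mul_of_nonneg_right f1 (by positivity)
    refine b4.trans ?_
    have b5 : (1 - (1 / δ) * (L⁻¹ + 24 * (L⁻¹ * L⁻¹))) / (1 + Real.log 2 * L⁻¹) ^ 3 * (M / L ^ 6) =
        (M * (1 - (1 / δ) * (L⁻¹ + 24 * (L⁻¹ * L⁻¹)))) / C ^ 3 := by
      rw [hCe]
      have : 0 < 1 + Real.log 2 * L⁻¹ := by positivity
      field_simp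
    rw [b5, div_le_iff₀ hC3]
    exact b2
  · -- upper
    have c1 : Real.log y = L * (1 - 8 * (Real.log L / L)) := by
      rw [hlogy]; field_simp
    have c0 : 0 < 1 - 8 * (Real.log L / L) := by linarith
    have c2 : 3 * (y * N) ≤ (3 / δ) * (L⁻¹ * L⁻¹) * (M / L ^ 6) := by
      have : 3 * (y * N) = 3 * ((N : ℝ) ^ 2 * (L⁻¹ * L⁻¹)) / L ^ 6 := by
        rw [hy]; field_simp
      rw [this]
      have h2 : (3 / δ) * (L⁻¹ * L⁻¹) * (M / L ^ 6) = 3 * ((M / δ) * (L⁻¹ * L⁻¹)) / L ^ 6 := by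
        field_simp
      rw [h2]
      gcongr
    have c3 : (∑ r ∈ T, w r) / Real.log y ^ 6 ≤
        (1 + (1 / δ) * L⁻¹) / (1 - 8 * (Real.log L / L)) ^ 6 * (M / L ^ 6) := by
      have h1 : ∑ r ∈ T, w r ≤ M * (1 + (1 / δ) * L⁻¹) := by
        have h11 : (N : ℝ) ^ 2 / L ≤ M * ((1 / δ) * L⁻¹) := by
          calc (N : ℝ) ^ 2 / L = (N : ℝ) ^ 2 * L⁻¹ := div_eq_mul_inv _ _
            _ ≤ (M / δ) * L⁻¹ := mul_le_mul_of_nonneg_right hN2M (by positivity)
            _ = M * ((1 / δ) * L⁻¹) := by ring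
        have : M * (1 + (1 / δ) * L⁻¹) = M + M * ((1 / δ) * L⁻¹) := by ring
        rw [this]
        linarith
      have h2 : (1 + (1 / δ) * L⁻¹) / (1 - 8 * (Real.log L / L)) ^ 6 * (M / L ^ 6) =
          (M * (1 + (1 / δ) * L⁻¹)) / Real.log y ^ 6 := by
        rw [c1, mul_pow]
        have h6 : (0 : ℝ) < (1 - 8 * (Real.log L / L)) ^ 6 := by positivity
        generalize (1 - 8 * (Real.log L / L)) ^ 6 = X at h6 ⊢
        field_simp
      rw [h2]
      gcongr
    calc (Tp.card : ℝ) ≤ 3 * (y * N) + (∑ r ∈ T, w r) / Real.log y ^ 6 := up1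
      _ ≤ (3 / δ) * (L⁻¹ * L⁻¹) * (M / L ^ 6) +
          (1 + (1 / δ) * L⁻¹) / (1 - 8 * (Real.log L / L)) ^ 6 * (M / L ^ 6) := add_le_add c2 c3
      _ = ((3 / δ) * (L⁻¹ * L⁻¹) + (1 + (1 / δ) * L⁻¹) / (1 - 8 * (Real.log L / L)) ^ 6) * (M / L ^ 6) := by ring
      _ ≤ (1 + ε) * (M / L ^ 6) := mul_le_mul_of_nonneg_right f2 (by positivity)


end Pool.Agent.E8helper16.TP44
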