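import Pool.Agent.E8helper77.GB.Rec
import Pool.Agent.E8helper64.GB.Rel
import Pool.Agent.E8helper66.GB.Quad
import Pool.Agent.E8helper23.GB.Core
import Pool.Agent.E8helper64.GB.Pig
import Pool.Agent.E8helper62.GB.CS
import Pool.Agent.E8helper97.GB.CST
import Pool.Agent.E8helper75.GB.Tii
import Pool.Agent.E8helper97.GB.TI2
import Pool.Agent.E8helper77.GB.Lam
import Pool.Agent.E8helper70.GB.LZ
import Pool.Agent.E8helper66.GB.U3
import Pool.Agent.E8helper91.TP.Tri
import Pool.Agent.E8helper16.TP.Fou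

set_option autoImplicit false

/-!
# The order three uniformity (project GB) and its consequence for prime pairs with almost every difference
-/

namespace Pool.Agent.E8helper16.TP

open Pool.Agent.E8helper66.GB

theorem u3 : S_U3 := by
  have tii : S_TII := Pool.Agent.E8helper75.GB.t_TII Pool.Agent.E8helper62.GB.t_CS
    (Pool.Agent.E8helper23.GB.t_CORE Pool.Agent.E8helper77.GB.t_REC
      (Pool.Agent.E8helper64.GB.t_REL Pool.Agent.E8helper77.GB.t_REC) t_QUAD)
    Pool.Agent.E8helper64.GB.t_PIG Pool.Agent.E8helper97.GB.t_CST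
  have ti : S_TI := Pool.Agent.E8helper97.GB.t_TI Pool.Agent.E8helper64.GB.t_PIG
  exact t_U3 (Pool.Agent.E8helper77.GB.t_LAM tii ti) (Pool.Agent.E8helper70.GB.t_LZ tii ti)

theorem fou : S_FOU := t_FOU (Pool.Agent.E8helper91.TP.t_TRI u3)

end Pool.Agent.E8helper16.TP
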