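import Pool.Agent.E8helper16.TP.Asm3

set_option autoImplicit false

/-!
# Prime pairs with almost every difference: final form (helper16)
-/

namespace Pool.Agent.E8helper16.TP

open Finset

/-- the weight `Λ(n) Λ(n + h)` of the pair `n, n + h` -/
noncomputable def pairWeight (h n : ℕ) : ℝ := ArithmeticFunction.vonMangoldt n * ArithmeticFunction.vonMangoldt (n + h)

/-- `p` divides `m (m + h)` -/
def Hit (h p : ℕ) (m : ℤ) : Prop := (p : ℤ) ∣ m ∨ (p : ℤ) ∣ m + h

open Classical in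
/-- the local factor at `p` for the progressions `x, x + y, x + 2 y`: `(1 - b / p²) (1 - 1 / p)⁻⁶`, where `b` is the number
of the pairs `(x, y)` modulo `p` such that `p` divides one of the six numbers `x + j y`, `x + j y + h` -/
noncomputable def localAP (h p : ℕ) : ℝ :=
  (1 - (((range p ×ˢ range p).filter (fun r : ℕ × ℕ => Hit h p r.1 ∨ Hit h p (r.1 + r.2) ∨ Hit h p (r.1 + 2 * r.2))).card : ℝ) /
    (p : ℝ) ^ 2) / (1 - 1 / (p : ℝ)) ^ 6

open Classical in
/-- the local factor at `p` for the decompositions `n = x + y + (n - x - y)` -/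
noncomputable def localSum (h n p : ℕ) : ℝ :=
  (1 - (((range p ×ˢ range p).filter (fun r : ℕ × ℕ => Hit h p r.1 ∨ Hit h p r.2 ∨ Hit h p (n - r.1 - r.2))).card : ℝ) /
    (p : ℝ) ^ 2) / (1 - 1 / (p : ℝ)) ^ 6

/-- the singular series for the progressions -/
noncomputable def singAP (h : ℕ) : ℝ := ∏' p : Nat.Primes, localAP h p

/-- the singular series for the sums of three -/
noncomputable def singSum (h n : ℕ) : ℝ := ∏' p : Nat.Primes, localSum h n p

/-- the positive integers `x, y` with `x + 2 y ≤ N` -/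
def apRegion (N : ℕ) : Finset (ℕ × ℕ) := (Icc 1 N ×ˢ Icc 1 N).filter (fun r => r.1 + 2 * r.2 ≤ N)

/-- the positive integers `x, y` with `x + y < n` -/
def sumRegion (n : ℕ) : Finset (ℕ × ℕ) := (Icc 1 n ×ˢ Icc 1 n).filter (fun r => r.1 + r.2 < n)

/-- `p` and `p + h` are prime -/
def IsPair (h p : ℕ) : Prop := p.Prime ∧ (p + h).Prime

open Classical in
/-- the number of the progressions `x, x + y, x + 2 y ≤ N`, `y ≥ 1`, in the set of the primes `p` with `p + h` prime -/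
noncomputable def apCount (h N : ℕ) : ℕ :=
  ((apRegion N).filter (fun r => IsPair h r.1 ∧ IsPair h (r.1 + r.2) ∧ IsPair h (r.1 + 2 * r.2))).card

open Classical in
/-- the number of the representations of `n` as a sum of three primes `p` with `p + h` prime -/
noncomputable def sumCount (h n : ℕ) : ℕ :=
  ((sumRegion n).filter (fun r => IsPair h r.1 ∧ IsPair h r.2 ∧ IsPair h (n - r.1 - r.2))).card

lemma hit_iff (h p m : ℕ) (k : ℤ) (hk : k = m) : Hit h p k ↔ p ∣ m ∨ p ∣ m + h := by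
  subst hk
  unfold Hit
  have e : ((m : ℤ) + (h : ℤ)) = ((m + h : ℕ) : ℤ) := by push_cast; rfl
  rw [e, Int.natCast_dvd_natCast, Int.natCast_dvd_natCast]

lemma localAP_eq (h p : ℕ) : localAP h p = loc (QA h) p := by
  classical
  have key : ((range p ×ˢ range p).filter (fun r : ℕ × ℕ => Hit h p r.1 ∨ Hit h p (r.1 + r.2) ∨ Hit h p (r.1 + 2 * r.2))) =
      ((range p ×ˢ range p).filter (fun r : ℕ × ℕ => QA h p r.1 r.2)) := by
    apply filter_congr
    intro r _
    rw [hit_iff h p r.1 _ rfl, hit_iff h p (r.1 + r.2) _ (by push_cast; rfl), hit_iff h p (r.1 + 2 * r.2) _ (by push_cast; rfl)]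
    unfold QA
    rw [or_assoc, or_assoc]
  unfold localAP loc bad
  rw [key]

lemma localSum_eq (h n p : ℕ) : localSum h n p = loc (QT h n) p := by
  classical
  have key : ((range p ×ˢ range p).filter (fun r : ℕ × ℕ => Hit h p r.1 ∨ Hit h p r.2 ∨ Hit h p (n - r.1 - r.2))) =
      ((range p ×ˢ range p).filter (fun r : ℕ × ℕ => QT h n p r.1 r.2)) := by
    apply filter_congr
    intro r _
    rw [hit_iff h p r.1 _ rfl, hit_iff h p r.2 _ rfl]
    unfold QT Hit
    rw [or_assoc, or_assoc]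
  unfold localSum loc bad
  rw [key]

lemma singAP_eq (h : ℕ) : singAP h = S3 h := by
  unfold singAP S3
  exact tprod_congr fun p => localAP_eq h p

lemma singSum_eq (h n : ℕ) : singSum h n = ST h n := by
  unfold singSum ST
  exact tprod_congr fun p => localSum_eq h n p

lemma apRegion_eq (N : ℕ) : apRegion N = tri 2 N := rfl

lemma sumRegion_eq (n : ℕ) : sumRegion n = tri 1 (n - 1) := by
  ext r
  rw [mem_tri]
  unfold sumRegion
  rw [mem_filter, mem_product, mem_Icc, mem_Icc]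
  omega

theorem main (hF : S_FOU) (hM : S_MIN) (hTT : S_TTA) (hTel : S_TEL) (hS : S_SYS2) (hG : S_GOOD) (hSer : S_SER)
    (hLow : S_LOW) (hCW : S_CW) :
    (∀ h : ℕ, 1 ≤ h → (Multipliable fun p : Nat.Primes => localAP h p) ∧
      ∀ n : ℕ, Multipliable fun p : Nat.Primes => localSum h n p) ∧
    ∃ c : ℝ, 0 < c ∧ ∀ (U : ℕ) (ε : ℝ), 0 < ε → ∃ B N₀ : ℕ, ∀ N : ℕ, N₀ ≤ N → ∃ E : Finset ℕ, E ⊆ Icc 1 N ∧
      (E.card : ℝ) ≤ N / Real.log N ^ U ∧ ∀ h ∈ Icc 1 N, h ∉ E →
      -- 1. all frequencies on the minor arcs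
      (∀ (q : ℕ) (a : ℤ) (θ : ℝ), IsCoprime a (q : ℤ) → Real.log N ^ B ≤ q → (q : ℝ) ≤ N / Real.log N ^ B →
        |θ - a / q| ≤ 1 / (q : ℝ) ^ 2 →
        ‖∑ n ∈ Icc 1 N, (pairWeight h n : ℂ) * Complex.exp (2 * Real.pi * Complex.I * (n * θ))‖ ≤ N / Real.log N ^ U) ∧
      -- 2. progressions of three terms
      |∑ r ∈ apRegion N, pairWeight h r.1 * pairWeight h (r.1 + r.2) * pairWeight h (r.1 + 2 * r.2) -
        singAP h * ((N : ℝ) ^ 2 / 4)| ≤ (N : ℝ) ^ 2 / Real.log N ^ U ∧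
      -- 3. sums of three, for all `n`
      (∀ n ≤ N, |∑ r ∈ sumRegion n, pairWeight h r.1 * pairWeight h r.2 * pairWeight h (n - r.1 - r.2) -
        singSum h n * ((n : ℝ) ^ 2 / 2)| ≤ (N : ℝ) ^ 2 / Real.log N ^ U) ∧
      -- 4. the numbers of progressions and of representations
      (Even h → c ≤ singAP h ∧
        (1 - ε) * (singAP h * ((N : ℝ) ^ 2 / 4) / Real.log N ^ 6) ≤ apCount h N ∧
        apCount h N ≤ (1 + ε) * (singAP h * ((N : ℝ) ^ 2 / 4) / Real.log N ^ 6) ∧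
        ∀ n : ℕ, Odd n → (3 ∣ h ∨ 3 ∣ n) → ε * N ≤ n → n ≤ N → c ≤ singSum h n ∧
          (1 - ε) * (singSum h n * ((n : ℝ) ^ 2 / 2) / Real.log N ^ 6) ≤ sumCount h n ∧
          sumCount h n ≤ (1 + ε) * (singSum h n * ((n : ℝ) ^ 2 / 2) / Real.log N ^ 6)) := by
  classical
  refine ⟨fun h hh => ⟨?_, fun n => ?_⟩, ?_⟩
  · obtain ⟨C, hC, hSer⟩ := hSer
    obtain ⟨s, hs1, -⟩ := hSer h hh (QA h) (Or.inl rfl)
    simp_rw [localAP_eq]
    exact hs1.multipliable
  · obtain ⟨C, hC, hSer⟩ := hSer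
    obtain ⟨s, hs1, -⟩ := hSer h hh (QT h n) (Or.inr ⟨n, rfl⟩)
    simp_rw [localSum_eq]
    exact hs1.multipliable
  obtain ⟨c, hc, hlow⟩ := low hSer hLow hG
  refine ⟨c, hc, fun U ε hε => ?_⟩
  obtain ⟨B, m1, h1⟩ := weighted hF hM hTT hTel hS hG hSer (U + 1)
  obtain ⟨m2, h2⟩ := counts_A hCW hc ε hε
  obtain ⟨m3, h3⟩ := counts_T hCW hc ε hε
  obtain ⟨m4, h4⟩ := Pool.Agent.H373R2.T7.ev_L' 1
  refine ⟨B, m1 + m2 + m3 + m4 + 1, fun N hN => ?_⟩
  obtain ⟨E, hE1, hE2, hE3⟩ := h1 N (by omega)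
  have hL1 := h4 N (by omega)
  have hL0 : 0 < Real.log N := by linarith
  have hN0 : (0 : ℝ) < N := by exact_mod_cast (by omega : 0 < N)
  have hpow : Real.log N ^ U ≤ Real.log N ^ (U + 1) := pow_le_pow_right₀ hL1 (by omega)
  have d1 : (N : ℝ) / Real.log N ^ (U + 1) ≤ N / Real.log N ^ U :=
    div_le_div_of_nonneg_left hN0.le (by positivity) hpow
  have d2 : (N : ℝ) ^ 2 / Real.log N ^ (U + 1) ≤ (N : ℝ) ^ 2 / Real.log N ^ U :=
    div_le_div_of_nonneg_left (by positivity) (by positivity) hpow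
  have d3 : (N : ℝ) ^ 2 / Real.log N ^ (U + 1) ≤ (N : ℝ) ^ 2 / Real.log N := by
    apply div_le_div_of_nonneg_left (by positivity) (by positivity)
    calc Real.log N = Real.log N ^ 1 := (pow_one _).symm
      _ ≤ Real.log N ^ (U + 1) := pow_le_pow_right₀ hL1 (by omega)
  refine ⟨E, hE1, hE2.trans d1, fun h hh hhE => ?_⟩
  obtain ⟨g1, g2, g3⟩ := hE3 h hh hhE
  have hh1 : 1 ≤ h := (mem_Icc.1 hh).1
  refine ⟨fun q a θ hq1 hq2 hq3 hθ => ?_, ?_, fun n hn => ?_, fun he => ⟨?_, ?_, ?_, fun n hodd h3n hn1 hn2 => ⟨?_, ?_, ?_⟩⟩⟩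
  · have := (g1 q a θ hq1 hq2 hq3 hθ).trans d1
    refine le_trans (le_of_eq ?_) this
    congr 1
    apply sum_congr rfl
    intro n _
    unfold Pool.Agent.H807R2.Dav.ee pairWeight ff
    push_cast
    rfl
  · rw [singAP_eq]
    exact g2.trans d2
  · rw [singSum_eq, sumRegion_eq]
    exact (g3 n hn).trans d2
  · rw [singAP_eq]
    exact (hlow h hh1 he).1
  · rw [singAP_eq]
    have := (h2 N (by omega) h hh (hlow h hh1 he).1 (g2.trans d3)).1
    unfold apCount
    exact this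
  · rw [singAP_eq]
    have := (h2 N (by omega) h hh (hlow h hh1 he).1 (g2.trans d3)).2
    unfold apCount
    exact this
  · rw [singSum_eq]
    exact (hlow h hh1 he).2 n hodd h3n
  · rw [singSum_eq]
    have := (h3 N (by omega) h hh n hn1 hn2 ((hlow h hh1 he).2 n hodd h3n) ((g3 n hn2).trans d3)).1
    unfold sumCount
    rw [sumRegion_eq]
    exact this
  · rw [singSum_eq]
    have := (h3 N (by omega) h hh n hn1 hn2 ((hlow h hh1 he).2 n hodd h3n) ((g3 n hn2).trans d3)).2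
    unfold sumCount
    rw [sumRegion_eq]
    exact this

end Pool.Agent.E8helper16.TP
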