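import Pool.Agent.E8helper16.TP.StmC
import Pool.Agent.H373R2.T7.LamZ2
import Pool.Agent.H373R2.T7.SysCount

set_option autoImplicit false

namespace Pool.Agent.E8helper16.TP

open Finset
open Pool.Agent.H807R2.Dav (ee)
open Pool.Agent.H373R2.T7 (lamz pz Vz mem_pz Vz_pos Vz_inv_small ev_L')

lemma bad_le (Q : ℕ → ℕ → ℕ → Prop) (p : ℕ) : bad Q p ≤ p ^ 2 := by
  classical
  unfold bad
  refine (card_filter_le _ _).trans ?_
  rw [card_product, card_range, sq]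

lemma bad_div (Q : ℕ → ℕ → ℕ → Prop) (p : ℕ) : 0 ≤ 1 - (bad Q p : ℝ) / (p : ℝ) ^ 2 ∧ 1 - (bad Q p : ℝ) / (p : ℝ) ^ 2 ≤ 1 := by
  have h1 : (bad Q p : ℝ) ≤ (p : ℝ) ^ 2 := by exact_mod_cast bad_le Q p
  have h2 : (bad Q p : ℝ) / (p : ℝ) ^ 2 ≤ 1 := div_le_one_of_le₀ h1 (by positivity)
  have h3 : 0 ≤ (bad Q p : ℝ) / (p : ℝ) ^ 2 := by positivity
  constructor <;> linarith

lemma prod_loc (Q : ℕ → ℕ → ℕ → Prop) (z : ℕ) :
    ∏ p ∈ pz z, loc Q p = ((Vz z)⁻¹) ^ 6 * ∏ p ∈ pz z, (1 - (bad Q p : ℝ) / (p : ℝ) ^ 2) := by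
  unfold loc Vz
  rw [prod_div_distrib, prod_pow, inv_pow, div_eq_mul_inv, mul_comm]

lemma prod_bad (Q : ℕ → ℕ → ℕ → Prop) (z : ℕ) : 0 ≤ ∏ p ∈ pz z, (1 - (bad Q p : ℝ) / (p : ℝ) ^ 2) ∧
    ∏ p ∈ pz z, (1 - (bad Q p : ℝ) / (p : ℝ) ^ 2) ≤ 1 :=
  ⟨prod_nonneg fun p _ => (bad_div Q p).1, prod_le_one (fun p _ => (bad_div Q p).1) fun p _ => (bad_div Q p).2⟩

open Classical in
lemma loc_main (hS : S_SYS2) (E U k : ℕ) (hk : 1 ≤ k) : ∃ N₀ : ℕ, ∀ N : ℕ, N₀ ≤ N → ∀ z : ℕ, 1 ≤ z →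
    (z : ℝ) ≤ Real.log N ^ E → ∀ n : ℕ, n ≤ N → ∀ Q : ℕ → ℕ → ℕ → Prop, Per2 Q 6 →
    |((Vz z)⁻¹) ^ 6 * ((((Icc 1 n ×ˢ Icc 1 n).filter (fun r : ℕ × ℕ => r.1 + k * r.2 ≤ n ∧ ∀ p ∈ pz z, ¬ Q p r.1 r.2)).card : ℕ) : ℝ) -
      (n : ℝ) ^ 2 / (2 * k) * ∏ p ∈ pz z, loc Q p| ≤ (N : ℝ) ^ 2 / Real.log N ^ U := by
  obtain ⟨m1, h1⟩ := hS 6 E (U + 6) k (by norm_num) hk
  obtain ⟨m2, h2⟩ := Vz_inv_small E
  obtain ⟨m3, h3⟩ := ev_L' 2
  refine ⟨m1 + m2 + m3, fun N hN z hz hzE n hn Q hQ => ?_⟩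
  have a1 := h1 N (by omega) z hz hzE n hn Q hQ
  have a2 := h2 N (by omega) z hz hzE
  have hL := h3 N (by omega)
  have hL0 : 0 < Real.log N := by linarith
  have hV0 : 0 < (Vz z)⁻¹ := inv_pos.2 (Vz_pos z)
  have hV6 : ((Vz z)⁻¹) ^ 6 ≤ Real.log N ^ 6 := pow_le_pow_left₀ hV0.le a2 6
  have hV60 : 0 < ((Vz z)⁻¹) ^ 6 := by positivity
  rw [prod_loc]
  have e : ∀ a b c d : ℝ, a * b - c * (a * d) = a * (b - c * d) := by intro a b c d; ring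
  rw [e, abs_mul, abs_of_pos hV60]
  calc ((Vz z)⁻¹) ^ 6 * _ ≤ Real.log N ^ 6 * ((N : ℝ) ^ 2 / Real.log N ^ (U + 6)) :=
        mul_le_mul hV6 a1 (abs_nonneg _) (by positivity)
    _ = (N : ℝ) ^ 2 / Real.log N ^ U := by
        rw [pow_add]
        field_simp

open Classical in
lemma gg_QA (z h x y : ℕ) : gg z h x * gg z h (x + y) * gg z h (x + 2 * y) =
    if ∀ p ∈ pz z, ¬ QA h p x y then ((Vz z)⁻¹) ^ 6 else 0 := by
  unfold gg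
  by_cases hA : ∀ p ∈ pz z, ¬ QA h p x y
  · rw [if_pos hA]
    have h1 : lamz z x = (Vz z)⁻¹ := by
      unfold lamz; exact if_pos fun p hp hd => hA p hp (Or.inl hd)
    have h2 : lamz z (x + h) = (Vz z)⁻¹ := by
      unfold lamz; exact if_pos fun p hp hd => hA p hp (Or.inr (Or.inl hd))
    have h3 : lamz z (x + y) = (Vz z)⁻¹ := by
      unfold lamz; exact if_pos fun p hp hd => hA p hp (Or.inr (Or.inr (Or.inl hd)))
    have h4 : lamz z (x + y + h) = (Vz z)⁻¹ := by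
      unfold lamz; exact if_pos fun p hp hd => hA p hp (Or.inr (Or.inr (Or.inr (Or.inl hd))))
    have h5 : lamz z (x + 2 * y) = (Vz z)⁻¹ := by
      unfold lamz; exact if_pos fun p hp hd => hA p hp (Or.inr (Or.inr (Or.inr (Or.inr (Or.inl hd)))))
    have h6 : lamz z (x + 2 * y + h) = (Vz z)⁻¹ := by
      unfold lamz; exact if_pos fun p hp hd => hA p hp (Or.inr (Or.inr (Or.inr (Or.inr (Or.inr hd)))))
    rw [h1, h2, h3, h4, h5, h6]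
    ring
  · rw [if_neg hA]
    push Not at hA
    obtain ⟨p, hp, hQ⟩ := hA
    have key : ∀ m, p ∣ m → lamz z m = 0 := fun m hm => by
      unfold lamz; exact if_neg fun h => h p hp hm
    rcases hQ with h | h | h | h | h | h <;> rw [key _ h] <;> ring

open Classical in
lemma gg_QT (z h n x y : ℕ) (hxy : x + y ≤ n) : gg z h x * gg z h y * gg z h (n - x - y) =
    if ∀ p ∈ pz z, ¬ QT h n p x y then ((Vz z)⁻¹) ^ 6 else 0 := by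
  have ec : ((n - x - y : ℕ) : ℤ) = (n : ℤ) - x - y := by omega
  have ec' : ((n - x - y + h : ℕ) : ℤ) = (n : ℤ) - x - y + h := by omega
  have hd1 : ∀ p : ℕ, p ∣ n - x - y ↔ (p : ℤ) ∣ (n : ℤ) - x - y := by
    intro p; rw [← ec, Int.natCast_dvd_natCast]
  have hd2 : ∀ p : ℕ, p ∣ n - x - y + h ↔ (p : ℤ) ∣ (n : ℤ) - x - y + h := by
    intro p; rw [← ec', Int.natCast_dvd_natCast]
  unfold gg
  by_cases hA : ∀ p ∈ pz z, ¬ QT h n p x y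
  · rw [if_pos hA]
    have h1 : lamz z x = (Vz z)⁻¹ := by
      unfold lamz; exact if_pos fun p hp hd => hA p hp (Or.inl hd)
    have h2 : lamz z (x + h) = (Vz z)⁻¹ := by
      unfold lamz; exact if_pos fun p hp hd => hA p hp (Or.inr (Or.inl hd))
    have h3 : lamz z y = (Vz z)⁻¹ := by
      unfold lamz; exact if_pos fun p hp hd => hA p hp (Or.inr (Or.inr (Or.inl hd)))
    have h4 : lamz z (y + h) = (Vz z)⁻¹ := by
      unfold lamz; exact if_pos fun p hp hd => hA p hp (Or.inr (Or.inr (Or.inr (Or.inl hd))))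
    have h5 : lamz z (n - x - y) = (Vz z)⁻¹ := by
      unfold lamz
      exact if_pos fun p hp hd => hA p hp (Or.inr (Or.inr (Or.inr (Or.inr (Or.inl ((hd1 p).1 hd))))))
    have h6 : lamz z (n - x - y + h) = (Vz z)⁻¹ := by
      unfold lamz
      exact if_pos fun p hp hd => hA p hp (Or.inr (Or.inr (Or.inr (Or.inr (Or.inr ((hd2 p).1 hd))))))
    rw [h1, h2, h3, h4, h5, h6]
    ring
  · rw [if_neg hA]
    push Not at hA
    obtain ⟨p, hp, hQ⟩ := hA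
    have key : ∀ m, p ∣ m → lamz z m = 0 := fun m hm => by
      unfold lamz; exact if_neg fun h => h p hp hm
    rcases hQ with h | h | h | h | h | h
    · rw [key _ h]; ring
    · rw [key _ h]; ring
    · rw [key _ h]; ring
    · rw [key _ h]; ring
    · rw [key _ ((hd1 p).2 h)]; ring
    · rw [key _ ((hd2 p).2 h)]; ring

open Classical in
lemma sum_tri (k n z : ℕ) (Q : ℕ → ℕ → ℕ → Prop) (g : ℕ × ℕ → ℝ)
    (hg : ∀ r ∈ tri k n, g r = if ∀ p ∈ pz z, ¬ Q p r.1 r.2 then ((Vz z)⁻¹) ^ 6 else 0) :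
    ∑ r ∈ tri k n, g r = ((Vz z)⁻¹) ^ 6 *
      ((((Icc 1 n ×ˢ Icc 1 n).filter (fun r : ℕ × ℕ => r.1 + k * r.2 ≤ n ∧ ∀ p ∈ pz z, ¬ Q p r.1 r.2)).card : ℕ) : ℝ) := by
  rw [sum_congr rfl hg, ← sum_filter, sum_const, nsmul_eq_mul, mul_comm]
  congr 3
  unfold tri
  rw [filter_filter]

/-- the main term for the progressions -/
theorem loc_A (hS : S_SYS2) (hG : S_GOOD) (E U : ℕ) : ∃ N₀ : ℕ, ∀ N : ℕ, N₀ ≤ N → ∀ z : ℕ, 1 ≤ z →
    (z : ℝ) ≤ Real.log N ^ E → ∀ h : ℕ,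
    |∑ r ∈ tri 2 N, gg z h r.1 * gg z h (r.1 + r.2) * gg z h (r.1 + 2 * r.2) -
      (N : ℝ) ^ 2 / 4 * ∏ p ∈ pz z, loc (QA h) p| ≤ (N : ℝ) ^ 2 / Real.log N ^ U := by
  classical
  obtain ⟨m1, h1⟩ := loc_main hS E U 2 (by norm_num)
  refine ⟨m1, fun N hN z hz hzE h => ?_⟩
  have a1 := h1 N hN z hz hzE N le_rfl (QA h) (hG.1 h)
  rw [sum_tri 2 N z (QA h) _ (fun r _ => gg_QA z h r.1 r.2)]
  have e : (N : ℝ) ^ 2 / (2 * ((2 : ℕ) : ℝ)) = (N : ℝ) ^ 2 / 4 := by norm_num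
  rw [e] at a1
  exact a1

/-- the main term for the ternary problem -/
theorem loc_T (hS : S_SYS2) (hG : S_GOOD) (E U : ℕ) : ∃ N₀ : ℕ, ∀ N : ℕ, N₀ ≤ N → ∀ z : ℕ, 1 ≤ z →
    (z : ℝ) ≤ Real.log N ^ E → ∀ h n : ℕ, n ≤ N →
    |∑ r ∈ tri 1 (n - 1), gg z h r.1 * gg z h r.2 * gg z h (n - r.1 - r.2) -
      (n : ℝ) ^ 2 / 2 * ∏ p ∈ pz z, loc (QT h n) p| ≤ (N : ℝ) ^ 2 / Real.log N ^ U := by
  classical
  obtain ⟨m1, h1⟩ := loc_main hS E (U + 1) 1 (by norm_num)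
  obtain ⟨m2, h2⟩ := Vz_inv_small E
  obtain ⟨m3, h3⟩ := ev_L' 2
  obtain ⟨m4, h4⟩ := Pool.Agent.H373R2.T7.ev_log' (U + 7) 1
  refine ⟨m1 + m2 + m3 + m4 + 1, fun N hN z hz hzE h n hn => ?_⟩
  have a1 := h1 N (by omega) z hz hzE (n - 1) (by omega) (QT h n) (hG.2.1 h n)
  have a2 := h2 N (by omega) z hz hzE
  have hL := h3 N (by omega)
  have a4 := h4 N (by omega)
  have hL0 : 0 < Real.log N := by linarith
  have hN0 : (0 : ℝ) < N := by exact_mod_cast (by omega : 0 < N)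
  have hV0 : 0 < (Vz z)⁻¹ := inv_pos.2 (Vz_pos z)
  have hV6 : ((Vz z)⁻¹) ^ 6 ≤ Real.log N ^ 6 := pow_le_pow_left₀ hV0.le a2 6
  have hV60 : 0 < ((Vz z)⁻¹) ^ 6 := by positivity
  rw [sum_tri 1 (n - 1) z (QT h n) _ (fun r hr => gg_QT z h n r.1 r.2 (by
    unfold tri at hr
    rw [mem_filter] at hr
    omega))]
  have e : (((n - 1 : ℕ) : ℝ)) ^ 2 / (2 * ((1 : ℕ) : ℝ)) = ((n - 1 : ℕ) : ℝ) ^ 2 / 2 := by norm_num
  rw [e] at a1
  have hP := prod_bad (QT h n) z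
  have hPl : 0 ≤ ∏ p ∈ pz z, loc (QT h n) p := by
    rw [prod_loc]; exact mul_nonneg hV60.le hP.1
  have hPu : ∏ p ∈ pz z, loc (QT h n) p ≤ Real.log N ^ 6 := by
    rw [prod_loc]
    calc ((Vz z)⁻¹) ^ 6 * _ ≤ Real.log N ^ 6 * 1 := mul_le_mul hV6 hP.2 hP.1 (by positivity)
      _ = _ := mul_one _
  have hdiff : |((n - 1 : ℕ) : ℝ) ^ 2 / 2 - (n : ℝ) ^ 2 / 2| ≤ (N : ℝ) := by
    rcases Nat.eq_zero_or_pos n with h0 | h0
    · subst h0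
      simp
    · rw [Nat.cast_sub h0]
      have hn1 : (1 : ℝ) ≤ n := by exact_mod_cast h0
      have hnN : (n : ℝ) ≤ N := by exact_mod_cast hn
      rw [abs_le]
      push_cast
      constructor <;> nlinarith
  set P := ∏ p ∈ pz z, loc (QT h n) p with hPd
  set C := ((Vz z)⁻¹) ^ 6 * ((((Icc 1 (n - 1) ×ˢ Icc 1 (n - 1)).filter
    (fun r : ℕ × ℕ => r.1 + 1 * r.2 ≤ n - 1 ∧ ∀ p ∈ pz z, ¬ QT h n p r.1 r.2)).card : ℕ) : ℝ) with hC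
  have h5 : C - (n : ℝ) ^ 2 / 2 * P = (C - ((n - 1 : ℕ) : ℝ) ^ 2 / 2 * P) + (((n - 1 : ℕ) : ℝ) ^ 2 / 2 - (n : ℝ) ^ 2 / 2) * P := by ring
  rw [h5]
  refine (abs_add_le _ _).trans ?_
  rw [abs_mul, abs_of_nonneg hPl]
  have h6 : |((n - 1 : ℕ) : ℝ) ^ 2 / 2 - (n : ℝ) ^ 2 / 2| * P ≤ (N : ℝ) * Real.log N ^ 6 :=
    mul_le_mul hdiff hPu hPl hN0.le
  have h7 : N * Real.log N ^ 6 ≤ (N : ℝ) ^ 2 / Real.log N ^ (U + 1) := by
    rw [le_div_iff₀ (by positivity)]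
    have h8 : Real.log N ^ (U + 7) ≤ N := by
      have h9 : √(N : ℝ) ≤ N := by
        rw [Real.sqrt_le_left hN0.le]
        have : (1 : ℝ) ≤ N := by exact_mod_cast (by omega : 1 ≤ N)
        nlinarith
      simp only [one_mul] at a4
      linarith
    calc N * Real.log N ^ 6 * Real.log N ^ (U + 1) = N * Real.log N ^ (U + 7) := by
          rw [mul_assoc, ← pow_add]; congr 2; omega
      _ ≤ N * N := by gcongr
      _ = _ := by ring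
  have h8 : (N : ℝ) ^ 2 / Real.log N ^ (U + 1) + (N : ℝ) ^ 2 / Real.log N ^ (U + 1) ≤ (N : ℝ) ^ 2 / Real.log N ^ U := by
    rw [pow_succ (Real.log N) U]
    have : (N : ℝ) ^ 2 / (Real.log N ^ U * Real.log N) + (N : ℝ) ^ 2 / (Real.log N ^ U * Real.log N) =
        (2 / Real.log N) * ((N : ℝ) ^ 2 / Real.log N ^ U) := by field_simp; ring
    rw [this]
    have h9 : 2 / Real.log N ≤ 1 := by rw [div_le_one hL0]; exact hL
    calc 2 / Real.log N * ((N : ℝ) ^ 2 / Real.log N ^ U) ≤ 1 * ((N : ℝ) ^ 2 / Real.log N ^ U) := by gcongr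
      _ = _ := one_mul _
  linarith

end Pool.Agent.E8helper16.TP
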