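import Mathlib
import Pool.Agent.H373R2.T7.LamZ

set_option autoImplicit false

/-!
# Project TP (helper16), MP_a1f59e_nt: prime pairs `p, p + h` for almost all `h`
# Statements of the pieces which do not use the order three estimate (light imports)
-/

namespace Pool.Agent.E8helper16.TP

open Finset
open Pool.Agent.H807R2.Dav (ee)
open Pool.Agent.H373R2.T7 (lamz pz Vz)

/-- the weight of a prime pair `n, n + h` -/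
noncomputable def ff (h n : ℕ) : ℝ := ArithmeticFunction.vonMangoldt n * ArithmeticFunction.vonMangoldt (n + h)

/-- its sieve model -/
noncomputable def gg (z h n : ℕ) : ℝ := lamz z n * lamz z (n + h)

open Classical in
/-- TP-1 (CIR): the circle method for a linear equation in three variables -/
def S_CIR : Prop := ∀ (N : ℕ) (c₁ c₂ c₃ n : ℤ), c₁ ≠ 0 → c₂ ≠ 0 → c₃ ≠ 0 → ∀ (a b c : ℕ → ℂ) (A : ℝ),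
  (∀ θ : ℝ, ‖∑ x ∈ Icc 1 N, a x * ee ((x : ℝ) * θ)‖ ≤ A) →
  ‖∑ x ∈ Icc 1 N, ∑ y ∈ Icc 1 N, ∑ w ∈ Icc 1 N, (if c₁ * x + c₂ * y + c₃ * w = n then a x * b y * c w else 0)‖ ≤
    A * (√(∑ y ∈ Icc 1 N, ‖b y‖ ^ 2) * √(∑ w ∈ Icc 1 N, ‖c w‖ ^ 2))

open Classical in
/-- the number of pairs of classes -/
noncomputable def bad (Q : ℕ → ℕ → ℕ → Prop) (p : ℕ) : ℕ := ((range p ×ˢ range p).filter (fun r => Q p r.1 r.2)).card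

/-- periodic conditions on pairs, with few classes -/
structure Per2 (Q : ℕ → ℕ → ℕ → Prop) (c : ℕ) : Prop where
  per : ∀ p x y, Q p x y ↔ Q p (x % p) (y % p)
  few : ∀ p, p.Prime → bad Q p ≤ c * p

open Classical in
/-- TP-2 (CRT2) -/
def S_CRT2 : Prop := ∀ (Q : ℕ → ℕ → ℕ → Prop) (S : Finset ℕ), (∀ p ∈ S, p.Prime) →
  ((range (∏ p ∈ S, p) ×ˢ range (∏ p ∈ S, p)).filter (fun r => ∀ p ∈ S, Q p (r.1 % p) (r.2 % p))).card = ∏ p ∈ S, bad Q p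

open Classical in
/-- TP-3 (CNT2): counting pairs in a triangle with congruence conditions -/
def S_CNT2 : Prop := ∀ (Q : ℕ → ℕ → ℕ → Prop) (S : Finset ℕ), (∀ p ∈ S, p.Prime) → ∀ k n : ℕ, 1 ≤ k →
  |((((Icc 1 n ×ˢ Icc 1 n).filter (fun r : ℕ × ℕ => r.1 + k * r.2 ≤ n ∧ ∀ p ∈ S, Q p (r.1 % p) (r.2 % p))).card : ℕ) : ℝ) -
    (n : ℝ) ^ 2 / (2 * k) * ∏ p ∈ S, ((bad Q p : ℝ) / (p : ℝ) ^ 2)| ≤ 3 * n * ((∏ p ∈ S, p : ℕ) : ℝ)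

open Classical in
/-- TP-4 (SYS2): the sieve in two variables -/
def S_SYS2 : Prop := ∀ c E U k : ℕ, 1 ≤ c → 1 ≤ k → ∃ N₀ : ℕ, ∀ N : ℕ, N₀ ≤ N → ∀ z : ℕ, 1 ≤ z →
  (z : ℝ) ≤ Real.log N ^ E → ∀ n : ℕ, n ≤ N → ∀ Q : ℕ → ℕ → ℕ → Prop, Per2 Q c →
  |((((Icc 1 n ×ˢ Icc 1 n).filter (fun r : ℕ × ℕ => r.1 + k * r.2 ≤ n ∧ ∀ p ∈ pz z, ¬ Q p r.1 r.2)).card : ℕ) : ℝ) -
    (n : ℝ) ^ 2 / (2 * k) * ∏ p ∈ pz z, (1 - (bad Q p : ℝ) / (p : ℝ) ^ 2)| ≤ (N : ℝ) ^ 2 / Real.log N ^ U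

/-- the local factor at `p` -/
noncomputable def loc (Q : ℕ → ℕ → ℕ → Prop) (p : ℕ) : ℝ :=
  (1 - (bad Q p : ℝ) / (p : ℝ) ^ 2) / (1 - 1 / (p : ℝ)) ^ 6

/-- TP-5 (LOW) -/
def S_LOW : Prop := ∃ c : ℝ, 0 < c ∧ ∀ Q : ℕ → ℕ → ℕ → Prop, Per2 Q 6 → (∀ p, p.Prime → bad Q p < p ^ 2) →
  ∀ z : ℕ, c ≤ ∏ p ∈ pz z, loc Q p

/-- the condition of a progression `x, x + y, x + 2 y` -/
def QA (h p x y : ℕ) : Prop :=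
  p ∣ x ∨ p ∣ x + h ∨ p ∣ x + y ∨ p ∣ x + y + h ∨ p ∣ x + 2 * y ∨ p ∣ x + 2 * y + h

/-- the condition of a decomposition `n = x + y + (n - x - y)` -/
def QT (h n p x y : ℕ) : Prop :=
  p ∣ x ∨ p ∣ x + h ∨ p ∣ y ∨ p ∣ y + h ∨ (p : ℤ) ∣ (n : ℤ) - x - y ∨ (p : ℤ) ∣ (n : ℤ) - x - y + h

/-- TP-6 (GOOD): the two systems -/
def S_GOOD : Prop := (∀ h, Per2 (QA h) 6) ∧ (∀ h n, Per2 (QT h n) 6) ∧
  (∀ h, Even h → ∀ p, p.Prime → bad (QA h) p < p ^ 2) ∧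
  (∀ h n, Even h → Odd n → (3 ∣ h ∨ 3 ∣ n) → ∀ p, p.Prime → bad (QT h n) p < p ^ 2)

/-- TP-7 (SER): the singular series and its tail -/
def S_SER : Prop := ∃ C : ℝ, 0 < C ∧ ∀ h : ℕ, 1 ≤ h → ∀ Q : ℕ → ℕ → ℕ → Prop, (Q = QA h ∨ ∃ n, Q = QT h n) →
  ∃ s : ℝ, HasProd (fun p : Nat.Primes => loc Q p) s ∧ 0 ≤ s ∧
    ∀ z : ℕ, C * (1 + Real.log h) ≤ z → |∏ p ∈ pz z, loc Q p - s| ≤ C * (1 + Real.log h) ^ 5 / z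

/-- TP-8 (MIN): minor arcs for the sieve model of prime pairs -/
def S_MIN : Prop := ∀ E U : ℕ, ∃ B N₀ : ℕ, ∀ N : ℕ, N₀ ≤ N → ∀ z : ℕ, 1 ≤ z → (z : ℝ) ≤ Real.log N ^ E →
  ∀ q : ℕ, Real.log N ^ B ≤ q → (q : ℝ) ≤ N / Real.log N ^ B → ∀ c : ℤ, IsCoprime c (q : ℤ) →
  ∀ α : ℝ, |α - c / q| ≤ 1 / (q : ℝ) ^ 2 → ∀ h : ℕ,
  ‖∑ n ∈ Icc 1 N, ((gg z h n : ℝ) : ℂ) * ee ((n : ℝ) * α)‖ ≤ N / Real.log N ^ U

/-- TP-9 (PP): proper prime powers are negligible -/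
def S_PP : Prop := ∀ U : ℕ, ∃ N₀ : ℕ, ∀ N : ℕ, N₀ ≤ N → ∀ h ∈ Icc 1 N,
  ∑ x ∈ Icc 1 N, (if x.Prime ∧ (x + h).Prime then 0 else ff h x) ≤ N / Real.log N ^ U

end Pool.Agent.E8helper16.TP
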