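import Pool.Agent.E8helper66.GB.Stm
import Pool.Agent.E8helper16.TP.StmA

set_option autoImplicit false

/-!
# Project TP (helper16), MP_a1f59e_nt: statements of the pieces which use the order three estimate `S_U3`
-/

namespace Pool.Agent.E8helper16.TP

open Finset
open Pool.Agent.H807R2.Dav (ee)
open Pool.Agent.H373R2.T7 (lamz pz Vz)
open Pool.Agent.E8helper66.GB (DD FF S_U3)

/-- TP-10 (TRI): one factor `DD`, the other one arbitrary; the phases depend on the shift -/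
def S_TRI : Prop := ∀ U : ℕ, ∃ B : ℕ, ∀ K : ℕ, ∃ N₀ : ℕ, ∀ N : ℕ, N₀ ≤ N → ∀ z : ℕ, Real.log N ^ B ≤ z →
  (z : ℝ) ≤ Real.log N ^ K → ∀ (F : ℕ → ℂ) (θ : ℕ → ℝ), (∀ x ∈ Icc 1 (2 * N), ‖F x‖ ≤ Real.log N ^ 2) →
  ∑ h ∈ Icc 1 N, ‖∑ x ∈ Icc 1 N, F x * DD z (x + h) * ee (θ h * x)‖ ≤ (N : ℝ) ^ 2 / Real.log N ^ U ∧
  ∑ h ∈ Icc 1 N, ‖∑ x ∈ Icc 1 N, DD z x * F (x + h) * ee (θ h * x)‖ ≤ (N : ℝ) ^ 2 / Real.log N ^ U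

/-- TP-11 (FOU): all phases simultaneously, for almost all shifts -/
def S_FOU : Prop := ∀ U : ℕ, ∃ B : ℕ, ∀ K : ℕ, ∃ N₀ : ℕ, ∀ N : ℕ, N₀ ≤ N → ∀ z : ℕ, Real.log N ^ B ≤ z →
  (z : ℝ) ≤ Real.log N ^ K → ∃ E : Finset ℕ, E ⊆ Icc 1 N ∧ (E.card : ℝ) ≤ N / Real.log N ^ U ∧
  ∀ h ∈ Icc 1 N, h ∉ E → ∀ θ : ℝ,
    ‖∑ n ∈ Icc 1 N, ((ff h n - gg z h n : ℝ) : ℂ) * ee ((n : ℝ) * θ)‖ ≤ N / Real.log N ^ U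

end Pool.Agent.E8helper16.TP
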