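import Pool.Agent.E8helper16.TP.StmA

set_option autoImplicit false

/-!
# Project TP (helper16), MP_a1f59e_nt: further statements (light imports)
-/

namespace Pool.Agent.E8helper16.TP

open Finset
open Pool.Agent.H807R2.Dav (ee)
open Pool.Agent.H373R2.T7 (lamz pz Vz)

/-- the triangle of the `(x, y)` with `x + k y ≤ n`, `x, y ≥ 1` -/
def tri (k n : ℕ) : Finset (ℕ × ℕ) := (Icc 1 n ×ˢ Icc 1 n).filter (fun r => r.1 + k * r.2 ≤ n)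

open Classical in
/-- the sum over the solutions of a linear equation -/
noncomputable def TT (N : ℕ) (c₁ c₂ c₃ n : ℤ) (a b c : ℕ → ℂ) : ℂ :=
  ∑ x ∈ Icc 1 N, ∑ y ∈ Icc 1 N, ∑ w ∈ Icc 1 N, (if c₁ * x + c₂ * y + c₃ * w = n then a x * b y * c w else 0)

/-- TP-12 (TTA): the two equations as sums over triangles -/
def S_TTA : Prop :=
  (∀ (N n : ℕ), n ≤ N → ∀ a b c : ℕ → ℂ, TT N 1 1 1 n a b c = ∑ r ∈ tri 1 (n - 1), a r.1 * b r.2 * c (n - r.1 - r.2)) ∧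
  (∀ (N : ℕ) (a : ℕ → ℂ), TT N 1 (-2) 1 0 a a a =
    2 * ∑ r ∈ tri 2 N, a r.1 * a (r.1 + r.2) * a (r.1 + 2 * r.2) + ∑ x ∈ Icc 1 N, a x ^ 3)

/-- TP-13 (TEL): telescoping -/
def S_TEL : Prop := ∀ (N : ℕ) (c₁ c₂ c₃ n : ℤ), c₁ ≠ 0 → c₂ ≠ 0 → c₃ ≠ 0 → ∀ (F G : ℕ → ℂ) (A L : ℝ), 0 ≤ L →
  (∀ θ : ℝ, ‖∑ x ∈ Icc 1 N, (F x - G x) * ee ((x : ℝ) * θ)‖ ≤ A) →
  ∑ x ∈ Icc 1 N, ‖F x‖ ^ 2 ≤ L → ∑ x ∈ Icc 1 N, ‖G x‖ ^ 2 ≤ L →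
  ‖TT N c₁ c₂ c₃ n F F F - TT N c₁ c₂ c₃ n G G G‖ ≤ 3 * A * L

end Pool.Agent.E8helper16.TP
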